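import Pool.Agent.Lib.MP_0c4359_pr.Kap

/-! The exponential formula near the origin. -/

namespace Pool.Agent.Lib.MP_0c4359_pr

open PowerSeries Filter Topology Set
open Finset.HasAntidiagonal (antidiagonal)

lemma summable_geo {f : ℕ → ℝ} {K ρ w : ℝ} (hf : ∀ n, |f n| ≤ K * ρ ^ n) (hρ : 0 ≤ ρ)
    (hw : ρ * |w| < 1) : Summable fun n => |f n * w ^ n| := by
  have h1 : Summable fun n : ℕ => K * (ρ * |w|) ^ n :=
    (summable_geometric_of_lt_one (by positivity) hw).mul_left K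
  refine Summable.of_nonneg_of_le (fun n => abs_nonneg _) (fun n => ?_) h1
  rw [abs_mul, abs_pow, mul_pow, ← mul_assoc]
  exact mul_le_mul_of_nonneg_right (hf n) (by positivity)

lemma deriv_series (f : ℕ → ℝ) (K ρ r : ℝ) (hρ : 0 ≤ ρ) (hf : ∀ n, |f n| ≤ K * ρ ^ n)
    (hr : 0 < r) (hr1 : ρ * r < 1) {w : ℝ} (hw : |w| < r) :
    HasDerivAt (fun w : ℝ => ∑' n, f n * w ^ n) (∑' n : ℕ, ((n : ℝ) + 1) * f (n + 1) * w ^ n) w := by
  have hu : Summable fun n : ℕ => (K / r) * ((n : ℝ) ^ 1 * (ρ * r) ^ n) := by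
    have hn : ‖ρ * r‖ < 1 := by
      rw [Real.norm_eq_abs, abs_of_nonneg (by positivity)]
      exact hr1
    have h2 := summable_pow_mul_geometric_of_norm_lt_one (R := ℝ) 1 hn
    exact h2.mul_left _
  have hbd : ∀ (n : ℕ) (y : ℝ), y ∈ Ioo (-r) r →
      ‖f n * ((n : ℝ) * y ^ (n - 1))‖ ≤ (K / r) * ((n : ℝ) ^ 1 * (ρ * r) ^ n) := by
    intro n y hy
    cases n with
    | zero => simp
    | succ n =>
      have hy' : |y| ≤ r := (abs_lt.mpr hy).le
      rw [Real.norm_eq_abs, abs_mul, abs_mul, abs_pow, Nat.add_sub_cancel, pow_one]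
      have h1 : |((n + 1 : ℕ) : ℝ)| = ((n + 1 : ℕ) : ℝ) := abs_of_nonneg (Nat.cast_nonneg _)
      rw [h1]
      have h2 : |y| ^ n ≤ r ^ n := pow_le_pow_left₀ (abs_nonneg _) hy' n
      have h3 := hf (n + 1)
      have h4 : 0 ≤ K * ρ ^ (n + 1) := (abs_nonneg _).trans h3
      calc |f (n + 1)| * (((n + 1 : ℕ) : ℝ) * |y| ^ n)
          ≤ (K * ρ ^ (n + 1)) * (((n + 1 : ℕ) : ℝ) * r ^ n) := by gcongr
        _ = K / r * (((n + 1 : ℕ) : ℝ) * (ρ * r) ^ (n + 1)) := by
            rw [mul_pow, pow_succ r n]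
            field_simp
  have hd := hasDerivAt_tsum_of_isPreconnected (g := fun n y => f n * y ^ n)
    (g' := fun n y => f n * ((n : ℝ) * y ^ (n - 1))) (t := Ioo (-r) r) (y₀ := 0) (y := w) hu
    isOpen_Ioo (convex_Ioo _ _).isPreconnected
    (fun n y _ => (hasDerivAt_pow n y).const_mul (f n)) hbd (by constructor <;> linarith)
    (by
      refine (summable_nat_add_iff 1).mp ?_
      simp only [pow_succ, mul_zero]
      exact summable_zero) (abs_lt.mp hw)
  have hs : Summable fun n : ℕ => f n * ((n : ℝ) * w ^ (n - 1)) :=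
    Summable.of_norm_bounded hu fun n => hbd n w (abs_lt.mp hw)
  have e : ∑' n : ℕ, f n * ((n : ℝ) * w ^ (n - 1)) = ∑' n : ℕ, ((n : ℝ) + 1) * f (n + 1) * w ^ n := by
    rw [hs.tsum_eq_zero_add]
    simp only [Nat.cast_zero, zero_mul, mul_zero, zero_add, Nat.cast_add, Nat.cast_one,
      Nat.add_sub_cancel]
    refine tsum_congr fun n => ?_
    ring
  rw [← e]
  exact hd

/-- Coefficients of the logarithm. -/
noncomputable def lc (A c : ℝ) (n : ℕ) : ℝ := coeff n (kap A c) / (2 * n)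

lemma lc_abs (A c : ℝ) (n : ℕ) : |lc A c n| ≤ |coeff n (kap A c)| := by
  unfold lc
  cases n with
  | zero => simp
  | succ n =>
    rw [abs_div]
    refine div_le_self (abs_nonneg _) ?_
    rw [abs_of_nonneg (by positivity)]
    push_cast
    have : (0 : ℝ) ≤ n := Nat.cast_nonneg n
    linarith

/-- The two sums. -/
noncomputable def Pser (A c w : ℝ) : ℝ := ∑' n, hyp A (A + 1 / 2) c n * w ^ n

/-- The logarithm series. -/
noncomputable def Lser (A c w : ℝ) : ℝ := ∑' n, lc A c n * w ^ n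

lemma exp_formula (A c : ℝ) (hc : 0 < c) : ∃ r : ℝ, 0 < r ∧ ∀ w : ℝ, 0 ≤ w → w < r →
    Pser A c w = Real.exp (Lser A c w) ∧ (Summable fun n => |hyp A (A + 1 / 2) c n * w ^ n|) ∧
    (Summable fun n => |coeff n (kap A c) * w ^ n|) := by
  obtain ⟨K1, ρ1, hK1, hρ1, h1⟩ := Bd_Fs A (A + 1 / 2) c hc
  obtain ⟨K2, ρ2, hK2, hρ2, h2⟩ := Bd_kap A c hc
  simp only [coeff_Fs] at h1
  set ρ := max ρ1 ρ2 with hρdef
  have hρ : 0 ≤ ρ := le_max_of_le_left hρ1
  set K := max K1 K2 with hKdef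
  have h1' : ∀ n, |hyp A (A + 1 / 2) c n| ≤ K * ρ ^ n := fun n => (h1 n).trans (by
    gcongr
    · exact le_max_left _ _
    · exact le_max_left _ _)
  have h2' : ∀ n, |coeff n (kap A c)| ≤ K * ρ ^ n := fun n => (h2 n).trans (by
    gcongr
    · exact le_max_right _ _
    · exact le_max_right _ _)
  have h3' : ∀ n, |lc A c n| ≤ K * ρ ^ n := fun n => (lc_abs A c n).trans (h2' n)
  set r : ℝ := 1 / (ρ + 1) with hr
  have hr0 : 0 < r := by positivity
  have hρr : ρ * r < 1 := by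
    rw [hr, mul_one_div, div_lt_one (by positivity)]
    linarith
  have hsmall : ∀ w : ℝ, |w| < r → ρ * |w| < 1 := by
    intro w hw
    calc ρ * |w| ≤ ρ * r := by gcongr
      _ < 1 := hρr
  have hderP : ∀ w : ℝ, |w| < r → HasDerivAt (Pser A c)
      (∑' n : ℕ, ((n : ℝ) + 1) * hyp A (A + 1 / 2) c (n + 1) * w ^ n) w := fun w hw =>
    deriv_series _ K ρ r hρ h1' hr0 hρr hw
  have hderL : ∀ w : ℝ, |w| < r → HasDerivAt (Lser A c)
      (∑' n : ℕ, ((n : ℝ) + 1) * lc A c (n + 1) * w ^ n) w := fun w hw =>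
    deriv_series _ K ρ r hρ h3' hr0 hρr hw
  have hLder : ∀ w : ℝ, ∑' n : ℕ, ((n : ℝ) + 1) * lc A c (n + 1) * w ^ n
      = ∑' n : ℕ, (coeff (n + 1) (kap A c) / 2) * w ^ n := by
    intro w
    refine tsum_congr fun n => ?_
    unfold lc
    push_cast
    have : (n : ℝ) + 1 ≠ 0 := by positivity
    field_simp
  have hprod : ∀ w : ℝ, |w| < r →
      ∑' n : ℕ, ((n : ℝ) + 1) * hyp A (A + 1 / 2) c (n + 1) * w ^ n =
      (∑' n : ℕ, ((n : ℝ) + 1) * lc A c (n + 1) * w ^ n) * Pser A c w := by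
    intro w hw
    rw [hLder]
    have hs1 : Summable fun n : ℕ => ‖(coeff (n + 1) (kap A c) / 2) * w ^ n‖ := by
      simp only [Real.norm_eq_abs]
      refine summable_geo (f := fun n => coeff (n + 1) (kap A c) / 2) (K := K * ρ) (ρ := ρ)
        (fun n => ?_) hρ (hsmall w hw)
      rw [abs_div]
      have h4 := h2' (n + 1)
      have h5 : |coeff (n + 1) (kap A c)| / |(2:ℝ)| ≤ |coeff (n + 1) (kap A c)| :=
        div_le_self (abs_nonneg _) (by norm_num)
      refine h5.trans (h4.trans (le_of_eq ?_))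
      rw [pow_succ]
      ring
    have hs2 : Summable fun n : ℕ => ‖hyp A (A + 1 / 2) c n * w ^ n‖ := by
      simp only [Real.norm_eq_abs]
      exact summable_geo (f := hyp A (A + 1 / 2) c) h1' hρ (hsmall w hw)
    unfold Pser
    rw [tsum_mul_tsum_eq_tsum_sum_antidiagonal_of_summable_norm hs1 hs2]
    refine tsum_congr fun n => ?_
    have hcv := kap_conv A c hc (n + 1)
    rw [Finset.Nat.sum_antidiagonal_succ, kap_zero] at hcv
    push_cast at hcv
    have e1 : ((n : ℝ) + 1) * hyp A (A + 1 / 2) c (n + 1)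
        = (∑ p ∈ antidiagonal n, coeff (p.1 + 1) (kap A c) * hyp A (A + 1 / 2) c p.2) / 2 := by
      linarith
    rw [e1, Finset.sum_div, Finset.sum_mul]
    refine Finset.sum_congr rfl fun p hp => ?_
    have hp' : p.1 + p.2 = n := by simpa using hp
    rw [← hp', pow_add]
    ring
  have hconst : ∀ w : ℝ, |w| < r → Pser A c w * Real.exp (-Lser A c w) = 1 := by
    intro w hw
    have hD : ∀ y ∈ Ioo (-r) r, HasDerivAt (fun y => Pser A c y * Real.exp (-Lser A c y)) 0 y := by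
      intro y hy
      have hy' : |y| < r := abs_lt.mpr hy
      have hd := (hderP y hy').mul (hderL y hy').neg.exp
      rw [hprod y hy'] at hd
      convert! hd using 1
      ring
    have hc0 := IsOpen.is_const_of_deriv_eq_zero isOpen_Ioo (convex_Ioo (-r) r).isPreconnected
      (fun y hy => (hD y hy).differentiableAt.differentiableWithinAt)
      (fun y hy => (hD y hy).deriv) (abs_lt.mp hw) (by constructor <;> linarith : (0:ℝ) ∈ Ioo (-r) r)
    rw [hc0]
    have e0 : Pser A c 0 = 1 := by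
      unfold Pser
      rw [tsum_eq_single 0 (fun n hn => by rw [zero_pow hn, mul_zero])]
      simp [hyp_zero]
    have e1 : Lser A c 0 = 0 := by
      unfold Lser
      rw [tsum_eq_single 0 (fun n hn => by rw [zero_pow hn, mul_zero])]
      simp [lc]
    rw [e0, e1]
    simp
  refine ⟨r, hr0, fun w hw0 hwr => ?_⟩
  have hw : |w| < r := by rwa [abs_of_nonneg hw0]
  have hs1 := summable_geo (f := hyp A (A + 1 / 2) c) h1' hρ (hsmall w hw)
  have hs2 := summable_geo (f := fun n => coeff n (kap A c)) h2' hρ (hsmall w hw)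
  refine ⟨?_, hs1, hs2⟩
  have h5 := hconst w hw
  rw [Real.exp_neg] at h5
  have h6 := Real.exp_pos (Lser A c w)
  field_simp at h5
  exact h5

end Pool.Agent.Lib.MP_0c4359_pr
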