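import Mathlib

/-! Gauss hypergeometric coefficients and contiguous relations. -/

namespace Pool.Agent.Lib.MP_0c4359_pr

open PowerSeries
open Finset.HasAntidiagonal (antidiagonal)

/-- Gauss coefficients. -/
noncomputable def hyp (a b c : ℝ) (n : ℕ) : ℝ :=
  ∏ i ∈ Finset.range n, ((a + i) * (b + i) / ((i + 1) * (c + i)))

lemma hyp_zero (a b c : ℝ) : hyp a b c 0 = 1 := by simp [hyp]

lemma hyp_succ (a b c : ℝ) (n : ℕ) :
    hyp a b c (n + 1) = hyp a b c n * ((a + n) * (b + n) / ((n + 1) * (c + n))) := by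
  rw [hyp, Finset.prod_range_succ]
  rfl

lemma hyp_symm (a b c : ℝ) : hyp a b c = hyp b a c := by
  ext n
  simp only [hyp]
  refine Finset.prod_congr rfl fun i _ => ?_
  ring

lemma S1 (a b c : ℝ) (hc : 0 < c) (n : ℕ) :
    hyp a b c (n + 1) = (a * b / c) * ((c + 1 + n) / ((c + 1) * (n + 1)))
      * hyp (a + 1) (b + 1) (c + 2) n := by
  induction n with
  | zero =>
    simp only [hyp_succ, hyp_zero, Nat.cast_zero]
    field_simp
    ring
  | succ n ih =>
    rw [hyp_succ, ih, hyp_succ (a + 1)]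
    push_cast
    have h1 : (0:ℝ) < n + 1 := by positivity
    have h2 : (0:ℝ) < c + (n + 1) := by positivity
    have h3 : (0:ℝ) < c + 2 + n := by positivity
    field_simp
    ring

lemma S2 (a b c : ℝ) (hc : 0 < c) (n : ℕ) :
    hyp b (a + 1) (c + 1) (n + 1) = (b * (a + 1 + n) / ((n + 1) * (c + 1)))
      * hyp (a + 1) (b + 1) (c + 2) n := by
  induction n with
  | zero =>
    simp only [hyp_succ, hyp_zero, Nat.cast_zero]
    field_simp
    ring
  | succ n ih =>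
    rw [hyp_succ, ih, hyp_succ (a + 1)]
    push_cast
    have h1 : (0:ℝ) < n + 1 := by positivity
    have h2 : (0:ℝ) < c + 1 + (n + 1) := by positivity
    have h3 : (0:ℝ) < c + 2 + n := by positivity
    field_simp
    ring

lemma S4 (a b c : ℝ) (hc : 0 < c) (n : ℕ) :
    hyp a b c n = ((c + n) / c) * hyp a b (c + 1) n := by
  induction n with
  | zero =>
    simp only [hyp_zero, Nat.cast_zero]
    field_simp
    ring
  | succ n ih =>
    rw [hyp_succ, ih, hyp_succ a b (c + 1)]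
    push_cast
    have h1 : (0:ℝ) < n + 1 := by positivity
    have h2 : (0:ℝ) < c + n := by positivity
    have h3 : (0:ℝ) < c + 1 + n := by positivity
    field_simp
    ring

lemma S3 (a b c : ℝ) (hc : 0 < c) (n : ℕ) :
    hyp a b c (n + 1) = ((a + n) * (b + n) / ((n + 1) * c)) * hyp a b (c + 1) n := by
  rw [hyp_succ, S4 a b c hc n]
  have h1 : (0:ℝ) < n + 1 := by positivity
  have h2 : (0:ℝ) < c + n := by positivity
  field_simp

lemma S8 (a b c : ℝ) (hc : 0 < c) (n : ℕ) :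
    (a + n) * hyp a b c n = a * hyp (a + 1) b c n := by
  induction n with
  | zero => simp [hyp_zero]
  | succ n ih =>
    rw [hyp_succ, hyp_succ (a + 1)]
    push_cast
    have h1 : (0:ℝ) < n + 1 := by positivity
    have h2 : (0:ℝ) < c + n := by positivity
    have e : (a + (n + 1)) * (hyp a b c n * ((a + n) * (b + n) / ((n + 1) * (c + n))))
        = ((a + n) * hyp a b c n) * ((a + (n + 1)) * ((b + n) / ((n + 1) * (c + n)))) := by
      ring
    rw [e, ih]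
    ring

lemma S5 (a b c : ℝ) (hc : 0 < c) (n : ℕ) :
    hyp a b c (n + 1) = (a * (b + n) / ((n + 1) * c)) * hyp (a + 1) b (c + 1) n := by
  rw [S3 a b c hc n]
  have h := S8 a b (c + 1) (by positivity) n
  have h1 : (0:ℝ) < n + 1 := by positivity
  have e : (a + n) * (b + n) / ((n + 1) * c) * hyp a b (c + 1) n
      = ((a + n) * hyp a b (c + 1) n) * ((b + n) / ((n + 1) * c)) := by ring
  rw [e, h]
  ring

lemma S7 (a b c : ℝ) (hc : 0 < c) (n : ℕ) :
    hyp a b c (n + 1) = (a * b / ((n + 1) * (c + n))) * hyp (a + 1) (b + 1) c n := by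
  rw [hyp_succ]
  have h1 := S8 a b c hc n
  have h2 := S8 b (a + 1) c hc n
  rw [hyp_symm b, hyp_symm (b + 1)] at h2
  have e : hyp a b c n * ((a + n) * (b + n) / ((n + 1) * (c + n)))
      = ((a + n) * hyp a b c n) * ((b + n) / ((n + 1) * (c + n))) := by ring
  rw [e, h1]
  have e2 : a * hyp (a + 1) b c n * ((b + n) / ((n + 1) * (c + n)))
      = ((b + n) * hyp (a + 1) b c n) * (a / ((n + 1) * (c + n))) := by ring
  rw [e2, h2]
  ring

/-- The hypergeometric series. -/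
noncomputable def Fs (a b c : ℝ) : PowerSeries ℝ := PowerSeries.mk (hyp a b c)

lemma Fs_symm (a b c : ℝ) : Fs a b c = Fs b a c := by rw [Fs, hyp_symm]; rfl

lemma coeff_Fs (a b c : ℝ) (n : ℕ) : coeff n (Fs a b c) = hyp a b c n := by simp [Fs]

lemma Fs_const (a b c : ℝ) : constantCoeff (Fs a b c) = 1 := by
  rw [← coeff_zero_eq_constantCoeff_apply, coeff_Fs, hyp_zero]

lemma Fs_ne (a b c : ℝ) : constantCoeff (Fs a b c) ≠ 0 := by rw [Fs_const]; exact one_ne_zero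

lemma Fs_mul_inv (a b c : ℝ) : Fs a b c * (Fs a b c)⁻¹ = 1 :=
  PowerSeries.mul_inv_cancel _ (Fs_ne a b c)

lemma gauss (a b c : ℝ) (hc : 0 < c) :
    Fs a b c = Fs b (a + 1) (c + 1)
      - C (b * (c - a) / (c * (c + 1))) * X * Fs (a + 1) (b + 1) (c + 2) := by
  ext n
  cases n with
  | zero => simp [Fs_const]
  | succ n =>
    rw [map_sub, mul_assoc, coeff_C_mul, coeff_succ_X_mul, coeff_Fs, coeff_Fs, coeff_Fs,
      S1 a b c hc, S2 a b c hc]
    have h1 : (0:ℝ) < n + 1 := by positivity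
    field_simp
    ring

lemma gauss0 (a b c : ℝ) (hc : 0 < c) :
    (1 - X) * Fs (a + 1) b c = Fs a b c - C ((c - b) / c) * X * Fs (a + 1) b (c + 1) := by
  have e : (1 - X) * Fs (a + 1) b c = Fs (a + 1) b c - X * Fs (a + 1) b c := by ring
  rw [e]
  ext n
  cases n with
  | zero => simp [coeff_Fs, hyp_zero, Fs_const]
  | succ n =>
    rw [map_sub, map_sub, mul_assoc, coeff_C_mul, coeff_succ_X_mul, coeff_succ_X_mul, coeff_Fs,
      coeff_Fs, coeff_Fs, coeff_Fs, S3 (a + 1) b c hc, S4 (a + 1) b c hc, S5 a b c hc]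
    have h1 : (0:ℝ) < n + 1 := by positivity
    field_simp
    ring

lemma recR (A c : ℝ) (hc : 0 < c) :
    C (2 * A + 1) * ((1 - X) * Fs (A + 1) (A + 1 / 2 + 1) c) =
      C (4 * A - 2 * c + 3) * Fs (A + 1) (A + 1 / 2) c
        - C (2 * A - 2 * c + 2) * Fs A (A + 1 / 2) c := by
  have e : (1 - X) * Fs (A + 1) (A + 1 / 2 + 1) c
      = Fs (A + 1) (A + 1 / 2 + 1) c - X * Fs (A + 1) (A + 1 / 2 + 1) c := by ring
  rw [e]
  ext n
  cases n with
  | zero =>
    simp only [map_sub, coeff_C_mul, coeff_Fs, hyp_zero, coeff_zero_X_mul]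
    ring
  | succ n =>
    have h6 : hyp (A + 1) (A + 1 / 2) c (n + 1) =
        ((A + 1 / 2) * (A + 1 + n) / ((n + 1) * (c + n))) * hyp (A + 1) (A + 1 / 2 + 1) c n := by
      rw [hyp_succ]
      have h := S8 (A + 1 / 2) (A + 1) c hc n
      rw [hyp_symm (A + 1 / 2), hyp_symm (A + 1 / 2 + 1)] at h
      have e : hyp (A + 1) (A + 1 / 2) c n *
          ((A + 1 + n) * (A + 1 / 2 + n) / ((n + 1) * (c + n)))
          = ((A + 1 / 2 + n) * hyp (A + 1) (A + 1 / 2) c n) *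
            ((A + 1 + n) / ((n + 1) * (c + n))) := by ring
      rw [e, h]
      ring
    rw [coeff_C_mul, map_sub, map_sub, coeff_C_mul, coeff_C_mul, coeff_succ_X_mul, coeff_Fs,
      coeff_Fs, coeff_Fs, coeff_Fs, S7 A (A + 1 / 2) c hc, h6, hyp_succ]
    have h1 : (0:ℝ) < n + 1 := by positivity
    have h2 : (0:ℝ) < c + n := by positivity
    field_simp
    ring

/-- The continued fraction quotients. -/
noncomputable def Rs (a b c : ℝ) : PowerSeries ℝ := Fs b (a + 1) (c + 1) * (Fs a b c)⁻¹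

lemma Rs_eq (a b c : ℝ) (hc : 0 < c) :
    Rs a b c * (1 - C (b * (c - a) / (c * (c + 1))) * X * Rs b (a + 1) (c + 1)) = 1 := by
  have h1 := Fs_mul_inv a b c
  have h2 := Fs_mul_inv b (a + 1) (c + 1)
  have h3 := gauss a b c hc
  have e : c + 1 + 1 = c + 2 := by ring
  unfold Rs
  rw [e]
  set F0 := Fs a b c
  set F1 := Fs b (a + 1) (c + 1)
  set F2 := Fs (a + 1) (b + 1) (c + 2)
  set K := C (b * (c - a) / (c * (c + 1))) * X
  calc F1 * F0⁻¹ * (1 - K * (F2 * F1⁻¹))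
      = F0⁻¹ * (F1 - K * F2 * (F1 * F1⁻¹)) := by ring
    _ = F0⁻¹ * (F1 - K * F2) := by rw [h2]; ring
    _ = F0⁻¹ * F0 := by rw [← h3]
    _ = 1 := by rw [mul_comm]; exact h1

/-- The basic quotient. -/
noncomputable def fs (A c : ℝ) : PowerSeries ℝ :=
  Fs A (A + 1 / 2) c * ((1 - X) * Fs (A + 1) (A + 1 / 2) c)⁻¹

lemma one_sub_X_Fs (a b c : ℝ) : constantCoeff ((1 - X) * Fs a b c) ≠ 0 := by
  rw [map_mul, Fs_const]
  simp

lemma fs_mul (A c : ℝ) :
    fs A c * ((1 - X) * Fs (A + 1) (A + 1 / 2) c) = Fs A (A + 1 / 2) c := by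
  unfold fs
  rw [mul_assoc, PowerSeries.inv_mul_cancel _ (one_sub_X_Fs _ _ _), mul_one]

lemma fs_base (A c : ℝ) (hc : 0 < c) :
    fs A c * (1 - C ((c - (A + 1 / 2)) / c) * X * Rs A (A + 1 / 2) c) = 1 := by
  have h1 := Fs_mul_inv A (A + 1 / 2) c
  have h3 := gauss0 A (A + 1 / 2) c hc
  have h4 := fs_mul A c
  unfold Rs
  rw [Fs_symm (A + 1 / 2)]
  rw [h3] at h4
  set F0 := Fs A (A + 1 / 2) c
  set G := Fs (A + 1) (A + 1 / 2) (c + 1)
  set K := C ((c - (A + 1 / 2)) / c) * X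
  calc fs A c * (1 - K * (G * F0⁻¹))
      = fs A c * (F0 * F0⁻¹ - K * (G * F0⁻¹)) := by rw [h1]
    _ = (fs A c * (F0 - K * G)) * F0⁻¹ := by ring
    _ = F0 * F0⁻¹ := by rw [h4]
    _ = 1 := h1

lemma fs_step (A c : ℝ) (hc : 0 < c) (hA : 2 * A + 1 ≠ 0) :
    fs (A + 1 / 2) c *
      (1 + C ((2 * A - 2 * c + 2) / (2 * A + 1)) * (1 - (1 - X) * fs A c)) = 1 := by
  have h4 := fs_mul A c
  have h5 := fs_mul (A + 1 / 2) c
  have h3 := recR A c hc
  have e : A + 1 / 2 + 1 / 2 = A + 1 := by ring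
  rw [e, Fs_symm (A + 1 / 2 + 1), Fs_symm (A + 1 / 2) (A + 1)] at h5
  have h6 := Fs_mul_inv (A + 1) (A + 1 / 2) c
  set P0 := Fs A (A + 1 / 2) c
  set P1 := Fs (A + 1) (A + 1 / 2) c
  set P2 := Fs (A + 1) (A + 1 / 2 + 1) c
  have hC : (C (2 * A + 1) : PowerSeries ℝ) * C ((2 * A - 2 * c + 2) / (2 * A + 1))
      = C (2 * A - 2 * c + 2) := by
    rw [← map_mul]
    congr 1
    field_simp
  have hu : (C (2 * A + 1) : PowerSeries ℝ) * C ((2 * A + 1)⁻¹) = 1 := by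
    rw [← map_mul, mul_inv_cancel₀ hA, map_one]
  have hsum : (C (2 * A + 1) : PowerSeries ℝ) + C (2 * A - 2 * c + 2) = C (4 * A - 2 * c + 3) := by
    rw [← map_add]
    congr 1
    ring
  have key : C (2 * A + 1) * (P1 * (1 + C ((2 * A - 2 * c + 2) / (2 * A + 1)) *
      (1 - (1 - X) * fs A c))) = C (2 * A + 1) * ((1 - X) * P2) := by
    rw [h3]
    calc C (2 * A + 1) * (P1 * (1 + C ((2 * A - 2 * c + 2) / (2 * A + 1)) *
        (1 - (1 - X) * fs A c)))
        = (C (2 * A + 1) + C (2 * A + 1) * C ((2 * A - 2 * c + 2) / (2 * A + 1))) * P1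
          - (C (2 * A + 1) * C ((2 * A - 2 * c + 2) / (2 * A + 1))) *
            (fs A c * ((1 - X) * P1)) := by ring
      _ = _ := by rw [hC, hsum, h4]
  have key2 : P1 * (1 + C ((2 * A - 2 * c + 2) / (2 * A + 1)) *
      (1 - (1 - X) * fs A c)) = (1 - X) * P2 := by
    have := congrArg (fun z => C ((2 * A + 1)⁻¹) * z) key
    simp only [← mul_assoc] at this
    rw [mul_comm (C ((2 * A + 1)⁻¹)), hu] at this
    simpa [mul_assoc] using this
  have h7 : P1 * (fs (A + 1 / 2) c * (1 + C ((2 * A - 2 * c + 2) / (2 * A + 1)) *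
      (1 - (1 - X) * fs A c))) = P1 := by
    calc _ = fs (A + 1 / 2) c * (P1 * (1 + C ((2 * A - 2 * c + 2) / (2 * A + 1)) *
        (1 - (1 - X) * fs A c))) := by ring
      _ = fs (A + 1 / 2) c * ((1 - X) * P2) := by rw [key2]
      _ = P1 := h5
  calc _ = (P1 * P1⁻¹) * (fs (A + 1 / 2) c * (1 + C ((2 * A - 2 * c + 2) / (2 * A + 1)) *
        (1 - (1 - X) * fs A c))) := by rw [h6, one_mul]
    _ = P1⁻¹ * (P1 * (fs (A + 1 / 2) c * (1 + C ((2 * A - 2 * c + 2) / (2 * A + 1)) *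
        (1 - (1 - X) * fs A c)))) := by ring
    _ = P1⁻¹ * P1 := by rw [h7]
    _ = 1 := by rw [mul_comm]; exact h6

/-- The canonical coefficients. -/
noncomputable def kap (A c : ℝ) : PowerSeries ℝ :=
  C (2 * A) * Fs (A + 1) (A + 1 / 2) c * (Fs A (A + 1 / 2) c)⁻¹

lemma kap_mul (A c : ℝ) :
    kap A c * Fs A (A + 1 / 2) c = C (2 * A) * Fs (A + 1) (A + 1 / 2) c := by
  unfold kap
  rw [mul_assoc, PowerSeries.inv_mul_cancel _ (Fs_ne _ _ _), mul_one]

lemma kap_conv (A c : ℝ) (hc : 0 < c) (n : ℕ) :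
    (2 * A + 2 * n) * hyp A (A + 1 / 2) c n =
      ∑ p ∈ antidiagonal n, coeff p.1 (kap A c) * hyp A (A + 1 / 2) c p.2 := by
  have h := congrArg (coeff n) (kap_mul A c)
  rw [coeff_mul, coeff_C_mul, coeff_Fs] at h
  simp only [coeff_Fs] at h
  rw [h]
  have := S8 A (A + 1 / 2) c hc n
  linear_combination 2 * this

lemma kap_low (A c : ℝ) (hc : 0 < c) :
    (1 - X) * kap A c = C (2 * A) * (1 - C ((c - (A + 1 / 2)) / c) * X * Rs A (A + 1 / 2) c) := by
  have h1 := Fs_mul_inv A (A + 1 / 2) c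
  have h3 := gauss0 A (A + 1 / 2) c hc
  unfold kap Rs
  rw [Fs_symm (A + 1 / 2)]
  set F0 := Fs A (A + 1 / 2) c
  set P1 := Fs (A + 1) (A + 1 / 2) c
  set G := Fs (A + 1) (A + 1 / 2) (c + 1)
  set K := C ((c - (A + 1 / 2)) / c) * X
  calc (1 - X) * (C (2 * A) * P1 * F0⁻¹)
      = C (2 * A) * (((1 - X) * P1) * F0⁻¹) := by ring
    _ = C (2 * A) * ((F0 * F0⁻¹) - K * (G * F0⁻¹)) := by rw [h3]; ring
    _ = _ := by rw [h1]

lemma kap_high (A c : ℝ) (hc : 0 < c) :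
    (1 - X) * (kap (A + 1 / 2) c + C (2 * A - 2 * c + 2) * fs A c) = C (4 * A - 2 * c + 3) := by
  have h4 := fs_mul A c
  have h3 := recR A c hc
  have h8 := kap_mul (A + 1 / 2) c
  have e : A + 1 / 2 + 1 / 2 = A + 1 := by ring
  have e2 : 2 * (A + 1 / 2) = 2 * A + 1 := by ring
  rw [e, e2, Fs_symm (A + 1 / 2 + 1), Fs_symm (A + 1 / 2) (A + 1)] at h8
  have h6 := Fs_mul_inv (A + 1) (A + 1 / 2) c
  set P0 := Fs A (A + 1 / 2) c
  set P1 := Fs (A + 1) (A + 1 / 2) c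
  set P2 := Fs (A + 1) (A + 1 / 2 + 1) c
  calc (1 - X) * (kap (A + 1 / 2) c + C (2 * A - 2 * c + 2) * fs A c)
      = (P1 * P1⁻¹) * ((1 - X) * (kap (A + 1 / 2) c + C (2 * A - 2 * c + 2) * fs A c)) := by
        rw [h6, one_mul]
    _ = P1⁻¹ * ((1 - X) * (kap (A + 1 / 2) c * P1)
        + C (2 * A - 2 * c + 2) * (fs A c * ((1 - X) * P1))) := by ring
    _ = P1⁻¹ * (C (2 * A + 1) * ((1 - X) * P2) + C (2 * A - 2 * c + 2) * P0) := by
        rw [h8, h4]; ring
    _ = P1⁻¹ * (C (4 * A - 2 * c + 3) * P1) := by rw [h3]; ring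
    _ = C (4 * A - 2 * c + 3) * (P1 * P1⁻¹) := by ring
    _ = _ := by rw [h6, mul_one]

end Pool.Agent.Lib.MP_0c4359_pr
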