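import Pool.Agent.Lib.MP_0c4359_pr.Mat
import Pool.Agent.Lib.MP_0c4359_pr.Hyp

/-! Positivity along the Gauss continued fraction and its matrix models. -/

namespace Pool.Agent.Lib.MP_0c4359_pr

open PowerSeries Matrix
open Finset.HasAntidiagonal (antidiagonal)

/-- Admissible states of the chain. -/
def Good (a b c : ℝ) : Prop := 0 < b ∧ -1 < a ∧ 0 < c ∧ a < c ∧ b < c + 1

lemma Good.next {a b c : ℝ} (h : Good a b c) : Good b (a + 1) (c + 1) := by
  obtain ⟨h1, h2, h3, h4, h5⟩ := h
  refine ⟨by linarith, by linarith, by linarith, by linarith, by linarith⟩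

lemma Rs_rec (a b c : ℝ) (hc : 0 < c) :
    Rs a b c = 1 + X * (C (b * (c - a) / (c * (c + 1))) * (Rs a b c * Rs b (a + 1) (c + 1))) := by
  have h := Rs_eq a b c hc
  linear_combination h

lemma Rs_coeff_zero (a b c : ℝ) (hc : 0 < c) : coeff 0 (Rs a b c) = 1 := by
  rw [Rs_rec a b c hc]
  simp

lemma Rs_coeff_succ (a b c : ℝ) (hc : 0 < c) (n : ℕ) :
    coeff (n + 1) (Rs a b c) = (b * (c - a) / (c * (c + 1))) *
      ∑ p ∈ antidiagonal n, coeff p.1 (Rs a b c) * coeff p.2 (Rs b (a + 1) (c + 1)) := by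
  conv_lhs => rw [Rs_rec a b c hc]
  rw [map_add, coeff_succ_X_mul, coeff_C_mul, coeff_mul, coeff_one, if_neg (by omega), zero_add]

lemma Good.kpos {a b c : ℝ} (h : Good a b c) : 0 < b * (c - a) / (c * (c + 1)) := by
  obtain ⟨h1, h2, h3, h4, h5⟩ := h
  have : 0 < c - a := by linarith
  positivity

lemma Rs_coeff_nonneg (n : ℕ) : ∀ a b c : ℝ, Good a b c → 0 ≤ coeff n (Rs a b c) := by
  induction n using Nat.strong_induction_on with
  | _ n ih =>
    intro a b c h
    cases n with
    | zero => rw [Rs_coeff_zero a b c h.2.2.1]; exact zero_le_one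
    | succ n =>
      rw [Rs_coeff_succ a b c h.2.2.1]
      refine mul_nonneg h.kpos.le (Finset.sum_nonneg fun p hp => ?_)
      have hp' : p.1 + p.2 = n := by simpa using hp
      exact mul_nonneg (ih p.1 (by omega) a b c h) (ih p.2 (by omega) _ _ _ h.next)

lemma Rs_sum_le (m : ℕ) : ∀ a b c : ℝ, Good a b c →
    (1 - b / c) * ∑ i ∈ Finset.range m, coeff i (Rs a b c) ≤ 1 := by
  induction m with
  | zero => intro a b c _; simp
  | succ m ih =>
    intro a b c h
    have hc := h.2.2.1
    have hb := h.1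
    set T := fun n => ∑ i ∈ Finset.range n, coeff i (Rs a b c) with hT
    set T' := fun n => ∑ i ∈ Finset.range n, coeff i (Rs b (a + 1) (c + 1)) with hT'
    have h1 : T (m + 1) = 1 + (b * (c - a) / (c * (c + 1))) *
        ∑ i ∈ Finset.range m, ∑ p ∈ antidiagonal i,
          coeff p.1 (Rs a b c) * coeff p.2 (Rs b (a + 1) (c + 1)) := by
      simp only [hT]
      rw [Finset.sum_range_succ', Rs_coeff_zero a b c hc, Finset.mul_sum, add_comm]
      congr 1
      refine Finset.sum_congr rfl fun i _ => ?_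
      rw [Rs_coeff_succ a b c hc]
    have h2 : ∑ i ∈ Finset.range m, ∑ p ∈ antidiagonal i,
          coeff p.1 (Rs a b c) * coeff p.2 (Rs b (a + 1) (c + 1)) ≤ T m * T' m := by
      have e : ∑ i ∈ Finset.range m, ∑ p ∈ antidiagonal i,
          coeff p.1 (Rs a b c) * coeff p.2 (Rs b (a + 1) (c + 1)) =
          ∑ i ∈ Finset.range m, ∑ k ∈ Finset.range (m - i),
            coeff i (Rs a b c) * coeff k (Rs b (a + 1) (c + 1)) := by
        rw [← Finset.sum_range_diag_flip m
          (fun i k => coeff i (Rs a b c) * coeff k (Rs b (a + 1) (c + 1)))]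
        refine Finset.sum_congr rfl fun i _ => ?_
        exact Finset.Nat.sum_antidiagonal_eq_sum_range_succ
          (fun i k => coeff i (Rs a b c) * coeff k (Rs b (a + 1) (c + 1))) i
      rw [e]
      simp only [hT, hT']
      rw [Finset.sum_mul]
      refine Finset.sum_le_sum fun i _ => ?_
      rw [← Finset.mul_sum]
      refine mul_le_mul_of_nonneg_left ?_ (Rs_coeff_nonneg i a b c h)
      refine Finset.sum_le_sum_of_subset_of_nonneg ?_ fun k _ _ => Rs_coeff_nonneg k _ _ _ h.next
      intro k hk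
      simp only [Finset.mem_range] at hk ⊢
      omega
    have h3 : (1 - (a + 1) / (c + 1)) * T' m ≤ 1 := ih b (a + 1) (c + 1) h.next
    have hTm : 0 ≤ T m := Finset.sum_nonneg fun i _ => Rs_coeff_nonneg i a b c h
    have hTm1 : T m ≤ T (m + 1) := by
      simp only [hT]
      rw [Finset.sum_range_succ]
      have := Rs_coeff_nonneg m a b c h
      linarith
    have ek : b * (c - a) / (c * (c + 1)) = (b / c) * (1 - (a + 1) / (c + 1)) := by
      have : c + 1 ≠ 0 := by linarith
      field_simp
      ring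
    have hbc : 0 < b / c := by positivity
    have h4 : T (m + 1) ≤ 1 + (b / c) * T m := by
      rw [h1]
      have h5 := mul_le_mul_of_nonneg_left h2 h.kpos.le
      have h6 : (b * (c - a) / (c * (c + 1))) * (T m * T' m)
          = (b / c) * T m * ((1 - (a + 1) / (c + 1)) * T' m) := by rw [ek]; ring
      have h7 : (b / c) * T m * ((1 - (a + 1) / (c + 1)) * T' m) ≤ (b / c) * T m * 1 :=
        mul_le_mul_of_nonneg_left h3 (by positivity)
      linarith
    have h5 : (b / c) * T m ≤ (b / c) * T (m + 1) := mul_le_mul_of_nonneg_left hTm1 hbc.le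
    show (1 - b / c) * T (m + 1) ≤ 1
    linarith

lemma inv_diff {u v p q : PowerSeries ℝ} {m : ℕ} (hu : u * p = 1) (hv : v * q = 1)
    (h : X ^ m ∣ p - q) : X ^ m ∣ u - v := by
  have e : u - v = (p - q) * (-(u * v)) := by
    linear_combination v * hu - u * hv
  rw [e]
  exact Dvd.dvd.mul_right h _

/-- Matrix models of the quotient up to a given order. -/
def Rep (a b c : ℝ) (m : ℕ) : Prop :=
  ∃ (ι : Type) (_ : Fintype ι) (_ : DecidableEq ι) (M : Matrix ι ι ℝ) (v : ι → ℝ),
    M.IsHermitian ∧ v ⬝ᵥ v = 1 ∧ (∀ x, 0 ≤ x ⬝ᵥ (M *ᵥ x)) ∧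
    (∀ x, x ⬝ᵥ (M *ᵥ x) + (1 - b / c) * (v ⬝ᵥ x) ^ 2 ≤ x ⬝ᵥ x) ∧
    X ^ m ∣ mser M v - Rs a b c

lemma rep_zero (a b c : ℝ) (h : Good a b c) : Rep a b c 0 := by
  refine ⟨Unit, inferInstance, inferInstance, 0, fun _ => 1, ?_, ?_, ?_, ?_, ?_⟩
  · exact Matrix.isHermitian_zero
  · simp [dotProduct]
  · intro x; simp
  · intro x
    have hb : 0 < b / c := div_pos h.1 h.2.2.1
    have : 0 ≤ (b / c) * (x ()) ^ 2 := by positivity
    simp [dotProduct]
    nlinarith
  · simp

lemma mom_smul {ι : Type} [Fintype ι] [DecidableEq ι] (M : Matrix ι ι ℝ) (v : ι → ℝ) (r : ℝ) :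
    mser M (r • v) = C (r ^ 2) * mser M v := by
  ext n
  rw [coeff_C_mul]
  simp only [mser, coeff_mk, mom]
  rw [mulVec_smul, dotProduct_smul, smul_dotProduct]
  simp only [smul_eq_mul]
  ring

lemma rankOne_isHermitian {ι : Type} (M : Matrix ι ι ℝ) (v : ι → ℝ) (k : ℝ)
    (hM : M.IsHermitian) : (M + k • vecMulVec v v).IsHermitian := by
  ext i j
  have h := hM.apply i j
  simp only [star_trivial] at h
  simp [vecMulVec_apply, h, mul_comm]

lemma rankOne_form {ι : Type} [Fintype ι] (M : Matrix ι ι ℝ) (v x : ι → ℝ) (k : ℝ) :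
    x ⬝ᵥ ((M + k • vecMulVec v v) *ᵥ x) = x ⬝ᵥ (M *ᵥ x) + k * (v ⬝ᵥ x) ^ 2 := by
  rw [add_mulVec, rankOne_mulVec, dotProduct_add, dotProduct_smul, dotProduct_comm x v,
    smul_eq_mul]
  ring

lemma rep_step (a b c : ℝ) (m : ℕ) (h : Good a b c) (hr : Rep (a + 1) (b + 1) (c + 2) m) :
    Rep a b c (m + 2) := by
  obtain ⟨ι, _, _, M, v, hM, hv, hpos, hle, hX⟩ := hr
  obtain ⟨hb, ha, hc, hac, hbc⟩ := id h
  set k1 := b * (c - a) / (c * (c + 1)) with hk1
  set k2 := (a + 1) * (c + 1 - b) / ((c + 1) * (c + 2)) with hk2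
  have hk1p : 0 < k1 := h.kpos
  have hk2p : 0 < k2 := by
    have h1 : 0 < a + 1 := by linarith
    have h2 : 0 < c + 1 - b := by linarith
    positivity
  set r := Real.sqrt (k1 * k2) with hr
  have hr2 : r ^ 2 = k1 * k2 := Real.sq_sqrt (by positivity)
  refine ⟨Option ι, inferInstance, inferInstance,
    border k1 (r • v) (M + k2 • vecMulVec v v), e0, ?_, ?_, ?_, ?_, ?_⟩
  · exact border_isHermitian _ _ _ (rankOne_isHermitian _ _ _ hM)
  · rw [e0_dot]; rfl
  · intro x
    rw [border_form, rankOne_form, smul_dotProduct, smul_eq_mul]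
    set s := v ⬝ᵥ fun i => x (some i)
    have h1 := hpos (fun i => x (some i))
    have h2 : 0 ≤ k1 * x none ^ 2 + 2 * x none * (r * s) + k2 * s ^ 2 := by
      have e1 : k1 * (k1 * x none ^ 2 + 2 * x none * (r * s) + k2 * s ^ 2)
          = (k1 * x none + r * s) ^ 2 := by
        have : (k1 * x none + r * s) ^ 2 = k1 ^ 2 * x none ^ 2 + 2 * k1 * x none * (r * s)
          + r ^ 2 * s ^ 2 := by ring
        rw [this, hr2]
        ring
      by_contra hcon
      push Not at hcon
      have := mul_neg_of_pos_of_neg hk1p hcon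
      rw [e1] at this
      exact absurd this (not_lt.mpr (sq_nonneg _))
    linarith
  · intro x
    rw [border_form, rankOne_form, smul_dotProduct, smul_eq_mul, e0_dot, dot_option x x]
    set s := v ⬝ᵥ fun i => x (some i)
    have h1 := hle (fun i => x (some i))
    have h2 : k1 * x none ^ 2 + 2 * x none * (r * s) + k2 * s ^ 2
        + (1 - b / c) * x none ^ 2 ≤ x none * x none + (1 - (b + 1) / (c + 2)) * s ^ 2 := by
      have hc1 : 0 < c + 1 := by linarith
      have hc2 : 0 < c + 2 := by linarith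
      set t := b / c with ht
      set t' := (a + 1) / (c + 1) with ht'
      set t'' := (b + 1) / (c + 2) with ht''
      have ek1 : k1 = t * (1 - t') := by
        rw [hk1, ht, ht']
        field_simp
        ring
      have ek2 : k2 = t' * (1 - t'') := by
        rw [hk2, ht', ht'']
        field_simp
        ring
      have htp : 0 < t := by positivity
      have htp' : 0 < t' := div_pos (by linarith) hc1
      have htp1 : 0 < 1 - t' := by
        have : t' < 1 := by rw [ht', div_lt_one hc1]; linarith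
        linarith
      have htp2 : 0 < 1 - t'' := by
        have : t'' < 1 := by rw [ht'', div_lt_one hc2]; linarith
        linarith
      set p := t * t' with hp
      set q := (1 - t') * (1 - t'') with hq
      have hpp : 0 < p := by positivity
      have hpq : r ^ 2 = p * q := by rw [hr2, ek1, ek2, hp, hq]; ring
      have e2 : p * (p * x none ^ 2 - 2 * x none * (r * s) + q * s ^ 2)
          = (p * x none - r * s) ^ 2 := by
        have : (p * x none - r * s) ^ 2 = p ^ 2 * x none ^ 2 - 2 * p * x none * (r * s)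
          + r ^ 2 * s ^ 2 := by ring
        rw [this, hpq]
        ring
      have e3 : 0 ≤ p * x none ^ 2 - 2 * x none * (r * s) + q * s ^ 2 := by
        by_contra hcon
        push Not at hcon
        have := mul_neg_of_pos_of_neg hpp hcon
        rw [e2] at this
        exact absurd this (not_lt.mpr (sq_nonneg _))
      have e4 : x none * x none + (1 - t'') * s ^ 2 - (k1 * x none ^ 2 + 2 * x none * (r * s)
          + k2 * s ^ 2 + (1 - t) * x none ^ 2)
          = p * x none ^ 2 - 2 * x none * (r * s) + q * s ^ 2 := by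
        rw [ek1, ek2, hp, hq]
        ring
      linarith
    linarith
  · set T := mser (border k1 (r • v) (M + k2 • vecMulVec v v)) e0 with hT
    set S := mser M v with hS
    set S' := mser (M + k2 • vecMulVec v v) v with hS'
    have h1 : T * (1 - C k1 * X - X ^ 2 * (C (k1 * k2) * S')) = 1 := by
      have := mser_border k1 (r • v) (M + k2 • vecMulVec v v)
      rwa [mom_smul, hr2] at this
    have h2 : S' * (1 - C k2 * X * S) = S := mser_rankOne M v k2
    have h3 : Rs a b c * (1 - C k1 * X * Rs b (a + 1) (c + 1)) = 1 := Rs_eq a b c hc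
    have h4 : Rs b (a + 1) (c + 1) * (1 - C k2 * X * Rs (a + 1) (b + 1) (c + 2)) = 1 := by
      have := Rs_eq b (a + 1) (c + 1) (by linarith)
      have e : c + 1 + 1 = c + 2 := by ring
      rw [e] at this
      exact this
    have h5 : (1 + C k2 * X * S') * (1 - C k2 * X * S) = 1 := by
      linear_combination C k2 * X * h2
    have hX1 : X ^ (m + 1) ∣ (1 - C k2 * X * S) - (1 - C k2 * X * Rs (a + 1) (b + 1) (c + 2)) := by
      have e : (1 - C k2 * X * S) - (1 - C k2 * X * Rs (a + 1) (b + 1) (c + 2))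
          = X * (S - Rs (a + 1) (b + 1) (c + 2)) * (-C k2) := by ring
      rw [e, pow_succ']
      exact Dvd.dvd.mul_right (mul_dvd_mul_left X hX) _
    have h6 := inv_diff h5 h4 hX1
    have h7 : T * (1 - C k1 * X * (1 + C k2 * X * S')) = 1 := by
      have e : T * (1 - C k1 * X * (1 + C k2 * X * S'))
          = T * (1 - C k1 * X - X ^ 2 * (C (k1 * k2) * S')) := by
        rw [map_mul]
        ring
      rw [e]
      exact h1
    have hX2 : X ^ (m + 2) ∣ (1 - C k1 * X * (1 + C k2 * X * S'))
        - (1 - C k1 * X * Rs b (a + 1) (c + 1)) := by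
      have e : (1 - C k1 * X * (1 + C k2 * X * S')) - (1 - C k1 * X * Rs b (a + 1) (c + 1))
          = X * ((1 + C k2 * X * S') - Rs b (a + 1) (c + 1)) * (-C k1) := by ring
      rw [e, pow_succ' X (m + 1)]
      exact Dvd.dvd.mul_right (mul_dvd_mul_left X h6) _
    exact inv_diff h7 h3 hX2

lemma rep_all (m : ℕ) : ∀ a b c : ℝ, Good a b c → Rep a b c (2 * m) := by
  induction m with
  | zero => intro a b c h; exact rep_zero a b c h
  | succ m ih =>
    intro a b c h
    have h2 := h.next.next
    have e : c + 1 + 1 = c + 2 := by ring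
    rw [e] at h2
    exact rep_step a b c (2 * m) h (ih _ _ _ h2)

end Pool.Agent.Lib.MP_0c4359_pr
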