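import Pool.Agent.Lib.MP_0c4359_pr.Chain

/-! Truncated moment classes and the two steps. -/

namespace Pool.Agent.Lib.MP_0c4359_pr

open PowerSeries Matrix
open Finset.HasAntidiagonal (antidiagonal)

/-- Truncated moment sequences with support in a fixed interval. -/
def Mom (R : ℝ) (f : ℕ → ℝ) : Prop :=
  ∀ m : ℕ, ∃ (ι : Type) (_ : Fintype ι) (w l : ι → ℝ), (∀ i, 0 ≤ w i) ∧
    (∀ i, -R ≤ l i ∧ l i ≤ 1) ∧ ∀ n < m, f n = ∑ i, w i * l i ^ n

/-- Type A series. -/
def TypeA (f : PowerSeries ℝ) : Prop := coeff 0 f = 1 ∧ ∃ R, Mom R fun n => coeff n f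

/-- Type B series. -/
def TypeB (f : PowerSeries ℝ) : Prop := coeff 0 f = 1 ∧ ∃ R, Mom R fun n => -coeff (n + 1) f

lemma diag_mul {ι : Type} [Fintype ι] [DecidableEq ι] (l x : ι → ℝ) :
    Matrix.diagonal l *ᵥ x = fun i => l i * x i := by
  ext i
  rw [mulVec_diagonal]

lemma mser_diag {ι : Type} [Fintype ι] [DecidableEq ι] (l x : ι → ℝ) (n : ℕ) :
    coeff n (mser (Matrix.diagonal l) x) = ∑ i, x i ^ 2 * l i ^ n := by
  simp only [mser, coeff_mk, mom]
  rw [Matrix.diagonal_pow, diag_mul]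
  simp only [dotProduct, Pi.pow_apply]
  refine Finset.sum_congr rfl fun i _ => ?_
  ring

lemma dot_sq_le {ι : Type} [Fintype ι] (v x : ι → ℝ) :
    (v ⬝ᵥ x) ^ 2 ≤ (v ⬝ᵥ v) * (x ⬝ᵥ x) := by
  have h := Finset.sum_mul_sq_le_sq_mul_sq Finset.univ v x
  simp only [dotProduct]
  simpa [sq] using h

lemma const_of_eq {f g : PowerSeries ℝ} {c : ℝ} (hf : coeff 0 f = 1)
    (h : g * (1 + C c * (1 - (1 - X) * f)) = 1) : coeff 0 g = 1 := by
  have h2 := congrArg constantCoeff h
  simp only [map_mul, map_add, map_sub, map_one, constantCoeff_C, constantCoeff_X] at h2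
  rw [coeff_zero_eq_constantCoeff_apply] at hf ⊢
  rw [hf] at h2
  simpa using h2

lemma stepAB (f g : PowerSeries ℝ) (c : ℝ) (hc : 0 ≤ c) (hf : TypeA f)
    (h : g * (1 + C c * (1 - (1 - X) * f)) = 1) : TypeB g := by
  obtain ⟨hf0, R, hR⟩ := hf
  have hg0 := const_of_eq hf0 h
  refine ⟨hg0, R + c * (coeff 0 f - coeff 1 f), fun m => ?_⟩
  obtain ⟨ι, _, w, l, hw, hl, hfn⟩ := hR (m + 2)
  classical
  set H : PowerSeries ℝ := PowerSeries.mk fun n => c * (coeff n f - coeff (n + 1) f) with hH
  set G : PowerSeries ℝ := PowerSeries.mk fun n => -coeff (n + 1) g with hG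
  have eH : C c * (1 - (1 - X) * f) = X * H := by
    have e : 1 - (1 - X) * f = 1 - f + X * f := by ring
    rw [e]
    ext n
    cases n with
    | zero =>
      rw [coeff_C_mul, map_add, map_sub, coeff_zero_X_mul, coeff_zero_X_mul, hf0, coeff_zero_one]
      ring
    | succ n =>
      rw [coeff_C_mul, map_add, map_sub, coeff_succ_X_mul, coeff_succ_X_mul, coeff_one,
        if_neg (by omega), hH, coeff_mk]
      ring
  have eG : g = 1 - X * G := by
    ext n
    cases n with
    | zero => rw [map_sub, coeff_zero_X_mul, hg0, coeff_zero_one]; ring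
    | succ n =>
      rw [map_sub, coeff_succ_X_mul, coeff_one, if_neg (by omega), hG, coeff_mk]
      ring
  rw [eH] at h
  set x : ι → ℝ := fun i => Real.sqrt (c * w i * (1 - l i)) with hx
  have hx2 : ∀ i, x i ^ 2 = c * w i * (1 - l i) := fun i =>
    Real.sq_sqrt (mul_nonneg (mul_nonneg hc (hw i)) (by linarith [(hl i).2]))
  set S := mser (Matrix.diagonal l) x with hS
  set T := mser (Matrix.diagonal l + (-1 : ℝ) • vecMulVec x x) x with hT
  have hSn : ∀ n < m + 1, coeff n S = coeff n H := by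
    intro n hn
    rw [hS, mser_diag, hH, coeff_mk]
    have e1 : coeff n f = ∑ i, w i * l i ^ n := hfn n (by omega)
    have e2 : coeff (n + 1) f = ∑ i, w i * l i ^ (n + 1) := hfn (n + 1) (by omega)
    rw [e1, e2, ← Finset.sum_sub_distrib, Finset.mul_sum]
    refine Finset.sum_congr rfl fun i _ => ?_
    rw [hx2]
    ring
  have hdvd : X ^ m ∣ H - S := by
    rw [PowerSeries.X_pow_dvd_iff]
    intro n hn
    rw [map_sub, hSn n (by omega), sub_self]
  have hT1 : T * (1 + X * S) = S := by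
    have := mser_rankOne (Matrix.diagonal l) x (-1)
    have hneg : (C (-1 : ℝ) : PowerSeries ℝ) = -1 := by simp
    rw [← hT, ← hS, hneg] at this
    linear_combination this
  have hG1 : G * (1 + X * H) = H := by
    have h2 : X * (G * (1 + X * H)) = X * H := by
      rw [eG] at h
      linear_combination -h
    exact mul_left_cancel₀ PowerSeries.X_ne_zero h2
  have hGT : G - T = (H - S) * (g * (1 - X * T)) := by
    have e1 : (G - T) * (1 + X * H) = (H - S) * (1 - X * T) := by
      linear_combination hG1 - hT1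
    calc G - T = (G - T) * (g * (1 + X * H)) := by rw [h]; ring
      _ = ((G - T) * (1 + X * H)) * g := by ring
      _ = _ := by rw [e1]; ring
  have hdvd2 : X ^ m ∣ G - T := by
    rw [hGT]
    exact Dvd.dvd.mul_right hdvd _
  have hxx : x ⬝ᵥ x = c * (coeff 0 f - coeff 1 f) := by
    have h1 := hSn 0 (by omega)
    rw [hS, mser_diag, hH, coeff_mk] at h1
    rw [← h1]
    simp [dotProduct, sq]
  have hherm : (Matrix.diagonal l + (-1 : ℝ) • vecMulVec x x).IsHermitian := by
    refine rankOne_isHermitian _ _ _ ?_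
    exact Matrix.isHermitian_diagonal l
  have hform : ∀ y : ι → ℝ, y ⬝ᵥ ((Matrix.diagonal l + (-1 : ℝ) • vecMulVec x x) *ᵥ y)
      = ∑ i, l i * y i ^ 2 - (x ⬝ᵥ y) ^ 2 := by
    intro y
    rw [rankOne_form, diag_mul]
    simp only [dotProduct]
    have : ∑ i, y i * (l i * y i) = ∑ i, l i * y i ^ 2 :=
      Finset.sum_congr rfl fun i _ => by ring
    rw [this]
    ring
  obtain ⟨w', l', hw', hl', hmom⟩ := mom_spectral _ hherm x
    (-(R + c * (coeff 0 f - coeff 1 f))) 1 (fun y => by
      rw [hform]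
      have h1 := dot_sq_le x y
      rw [hxx] at h1
      have h2 : ∑ i, -R * y i ^ 2 ≤ ∑ i, l i * y i ^ 2 :=
        Finset.sum_le_sum fun i _ => mul_le_mul_of_nonneg_right (hl i).1 (sq_nonneg _)
      rw [← Finset.mul_sum] at h2
      have h3 : y ⬝ᵥ y = ∑ i, y i ^ 2 := by simp [dotProduct, sq]
      rw [← h3] at h2
      linarith) (fun y => by
      rw [hform]
      have h2 : ∑ i, l i * y i ^ 2 ≤ ∑ i, 1 * y i ^ 2 :=
        Finset.sum_le_sum fun i _ => mul_le_mul_of_nonneg_right (hl i).2 (sq_nonneg _)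
      rw [← Finset.mul_sum] at h2
      have h3 : y ⬝ᵥ y = ∑ i, y i ^ 2 := by simp [dotProduct, sq]
      rw [← h3] at h2
      have := sq_nonneg (x ⬝ᵥ y)
      linarith)
  refine ⟨ι, inferInstance, w', l', hw', hl', fun n hn => ?_⟩
  rw [← hmom n]
  have h5 := PowerSeries.X_pow_dvd_iff.mp hdvd2 n hn
  rw [map_sub, hG, coeff_mk, hT, mser, coeff_mk] at h5
  linarith

lemma stepBA (f g : PowerSeries ℝ) (c : ℝ) (hc : 0 ≤ c) (hf : TypeB f)
    (h : g * (1 + C c * (1 - (1 - X) * f)) = 1) : TypeA g := by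
  obtain ⟨hf0, R, hR⟩ := hf
  have hg0 := const_of_eq hf0 h
  set u : ℕ → ℝ := fun n => -coeff (n + 1) f with hu
  set b : ℝ := -c * (1 + u 0) with hb
  set q : ℝ := c * (u 0 - u 1) with hq
  refine ⟨hg0, |b| + |q| + 1 + |R|, fun m => ?_⟩
  obtain ⟨ι, _, w, l, hw, hl, hfn⟩ := hR (m + 2)
  classical
  set H : PowerSeries ℝ := PowerSeries.mk fun n => c * (u n - u (n + 1)) with hH
  have eH : 1 + C c * (1 - (1 - X) * f) = 1 - C b * X - X ^ 2 * H := by
    have e : 1 - (1 - X) * f = 1 - f + X * f := by ring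
    rw [e]
    have e1 : 1 - C b * X - X ^ 2 * H = 1 - X * (C b + X * H) := by ring
    rw [e1]
    ext n
    rcases n with _ | _ | n
    · rw [map_add, coeff_C_mul, map_add, map_sub, coeff_zero_X_mul, map_sub, coeff_zero_X_mul,
        hf0, coeff_zero_one]
      ring
    · rw [map_add, coeff_C_mul, map_add, map_sub, map_sub, coeff_succ_X_mul, coeff_succ_X_mul,
        map_add, coeff_zero_X_mul, coeff_one, if_neg (by omega), hf0, coeff_zero_C, hb, hu]
      simp only
      ring
    · rw [map_add, coeff_C_mul, map_add, map_sub, map_sub, coeff_succ_X_mul, coeff_succ_X_mul,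
        map_add, coeff_succ_X_mul, coeff_one, if_neg (by omega), coeff_C, if_neg (by omega), hH,
        coeff_mk, hu]
      simp only
      ring
  rw [eH] at h
  set x : ι → ℝ := fun i => Real.sqrt (c * w i * (1 - l i)) with hx
  have hx2 : ∀ i, x i ^ 2 = c * w i * (1 - l i) := fun i =>
    Real.sq_sqrt (mul_nonneg (mul_nonneg hc (hw i)) (by linarith [(hl i).2]))
  set S := mser (Matrix.diagonal l) x with hS
  set T := mser (border b x (Matrix.diagonal l)) e0 with hT
  have hSn : ∀ n < m + 1, coeff n S = coeff n H := by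
    intro n hn
    rw [hS, mser_diag, hH, coeff_mk]
    have e1 : u n = ∑ i, w i * l i ^ n := hfn n (by omega)
    have e2 : u (n + 1) = ∑ i, w i * l i ^ (n + 1) := hfn (n + 1) (by omega)
    rw [e1, e2, ← Finset.sum_sub_distrib, Finset.mul_sum]
    refine Finset.sum_congr rfl fun i _ => ?_
    rw [hx2]
    ring
  have hdvd : X ^ m ∣ H - S := by
    rw [PowerSeries.X_pow_dvd_iff]
    intro n hn
    rw [map_sub, hSn n (by omega), sub_self]
  have hT1 : T * (1 - C b * X - X ^ 2 * S) = 1 := mser_border b x (Matrix.diagonal l)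
  have hdvd2 : X ^ m ∣ g - T := by
    refine inv_diff h hT1 ?_
    have e : (1 - C b * X - X ^ 2 * H) - (1 - C b * X - X ^ 2 * S) = (H - S) * (-X ^ 2) := by
      ring
    rw [e]
    exact Dvd.dvd.mul_right hdvd _
  have hxx : x ⬝ᵥ x = q := by
    have h1 := hSn 0 (by omega)
    rw [hS, mser_diag, hH, coeff_mk] at h1
    rw [hq, ← h1]
    simp [dotProduct, sq]
  have hherm : (border b x (Matrix.diagonal l)).IsHermitian :=
    border_isHermitian _ _ _ (Matrix.isHermitian_diagonal l)
  have hform : ∀ y : Option ι → ℝ, y ⬝ᵥ ((border b x (Matrix.diagonal l)) *ᵥ y)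
      = b * y none ^ 2 + ∑ i, (2 * y none * (x i * y (some i)) + l i * y (some i) ^ 2) := by
    intro y
    rw [border_form, diag_mul]
    simp only [dotProduct]
    rw [Finset.sum_add_distrib, ← Finset.mul_sum]
    have : ∑ i, y (some i) * (l i * y (some i)) = ∑ i, l i * y (some i) ^ 2 :=
      Finset.sum_congr rfl fun i _ => by ring
    rw [this]
    ring
  have hyy : ∀ y : Option ι → ℝ, y ⬝ᵥ y = y none ^ 2 + ∑ i, y (some i) ^ 2 := by
    intro y
    rw [dot_option]
    simp [dotProduct, sq]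
  have hu0 : u 0 = ∑ i, w i := by
    have := hfn 0 (by omega)
    simpa [hu] using this
  obtain ⟨w', l', hw', hl', hmom⟩ := mom_spectral _ hherm e0
    (-(|b| + |q| + 1 + |R|)) 1 (fun y => by
      rw [hform, hyy]
      have h1 : ∑ i, (-(x i * x i) * y none ^ 2 + (-(1 + |R|)) * y (some i) ^ 2)
          ≤ ∑ i, (2 * y none * (x i * y (some i)) + l i * y (some i) ^ 2) := by
        refine Finset.sum_le_sum fun i _ => ?_
        have e1 : 0 ≤ (x i * y none + y (some i)) ^ 2 := sq_nonneg _
        have e2 : -|R| * y (some i) ^ 2 ≤ l i * y (some i) ^ 2 := by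
          refine mul_le_mul_of_nonneg_right ?_ (sq_nonneg _)
          linarith [(hl i).1, neg_le_neg (le_abs_self R)]
        nlinarith
      rw [Finset.sum_add_distrib, ← Finset.mul_sum, ← Finset.sum_mul, Finset.sum_neg_distrib] at h1
      have h2 : ∑ i, x i * x i = q := hxx
      rw [h2] at h1
      set Y := ∑ i, y (some i) ^ 2 with hY
      have hY0 : 0 ≤ Y := Finset.sum_nonneg fun i _ => sq_nonneg _
      have hy0 : 0 ≤ y none ^ 2 := sq_nonneg _
      have h3 : -|b| * y none ^ 2 ≤ b * y none ^ 2 :=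
        mul_le_mul_of_nonneg_right (neg_abs_le b) hy0
      have h4 : -|q| * y none ^ 2 ≤ -q * y none ^ 2 :=
        mul_le_mul_of_nonneg_right (neg_le_neg (le_abs_self q)) hy0
      have h5 : 0 ≤ (|b| + |q|) * Y := by positivity
      have h6 : 0 ≤ (1 + |R|) * y none ^ 2 := by positivity
      nlinarith) (fun y => by
      rw [hform, hyy]
      have h1 : ∑ i, (2 * y none * (x i * y (some i)) + l i * y (some i) ^ 2)
          ≤ ∑ i, (c * w i * y none ^ 2 + 1 * y (some i) ^ 2) := by
        refine Finset.sum_le_sum fun i _ => ?_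
        set α := Real.sqrt (c * w i) with hα
        set β := Real.sqrt (1 - l i) with hβ
        have hα2 : α ^ 2 = c * w i := Real.sq_sqrt (mul_nonneg hc (hw i))
        have hβ2 : β ^ 2 = 1 - l i := Real.sq_sqrt (by linarith [(hl i).2])
        have hxi : x i = α * β := by
          rw [hx, hα, hβ]
          exact Real.sqrt_mul (mul_nonneg hc (hw i)) _
        have e1 : 0 ≤ (α * y none - β * y (some i)) ^ 2 := sq_nonneg _
        have e2 : (α * y none - β * y (some i)) ^ 2
            = α ^ 2 * y none ^ 2 - 2 * y none * ((α * β) * y (some i)) + β ^ 2 * y (some i) ^ 2 := by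
          ring
        rw [e2, hα2, hβ2, ← hxi] at e1
        linarith
      have e5 : ∑ i, (c * w i * y none ^ 2 + 1 * y (some i) ^ 2)
          = c * u 0 * y none ^ 2 + ∑ i, y (some i) ^ 2 := by
        rw [Finset.sum_add_distrib, ← Finset.sum_mul, ← Finset.mul_sum, ← Finset.mul_sum, hu0,
          one_mul]
      rw [e5] at h1
      have hy0 : 0 ≤ y none ^ 2 := sq_nonneg _
      have h2 : 0 ≤ c * y none ^ 2 := by positivity
      rw [hb]
      linarith)
  refine ⟨Option ι, inferInstance, w', l', hw', hl', fun n hn => ?_⟩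
  rw [← hmom n]
  have h5 := PowerSeries.X_pow_dvd_iff.mp hdvd2 n hn
  rw [map_sub, hT, mser, coeff_mk] at h5
  linarith

lemma base (A c : ℝ) (hc : 0 < c) (hj : 0 ≤ 2 * A - 2 * c + 1)
    (hj1 : 2 * A - 2 * c + 1 < 1) : TypeB (fs A c) := by
  have hgood : Good A (A + 1 / 2) c :=
    ⟨by linarith, by linarith, hc, by linarith, by linarith⟩
  have hfb := fs_base A c hc
  set k0 := (c - (A + 1 / 2)) / c with hk0
  have hk0' : 1 - (A + 1 / 2) / c = k0 := by rw [hk0]; field_simp
  have hk0n : k0 ≤ 0 := by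
    rw [hk0]
    exact div_nonpos_of_nonpos_of_nonneg (by linarith) hc.le
  have hf0 : coeff 0 (fs A c) = 1 := by
    have h2 := congrArg constantCoeff hfb
    simp only [map_mul, map_sub, map_one, constantCoeff_C, constantCoeff_X] at h2
    rw [coeff_zero_eq_constantCoeff_apply]
    simpa using h2
  refine ⟨hf0, -k0, fun m => ?_⟩
  obtain ⟨ι, _, _, M, v, hM, hv, hpos, hle, hX⟩ := rep_all m A (A + 1 / 2) c hgood
  set S := mser M v with hS
  set T := mser (M + k0 • vecMulVec v v) v with hT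
  have hT1 : T * (1 - C k0 * X * S) = S := mser_rankOne M v k0
  have h1 : (1 + C k0 * X * T) * (1 - C k0 * X * S) = 1 := by
    linear_combination C k0 * X * hT1
  have hdvd : X ^ (m + 1) ∣ (1 - C k0 * X * Rs A (A + 1 / 2) c) - (1 - C k0 * X * S) := by
    have e : (1 - C k0 * X * Rs A (A + 1 / 2) c) - (1 - C k0 * X * S)
        = X * (S - Rs A (A + 1 / 2) c) * C k0 := by ring
    rw [e, pow_succ']
    refine Dvd.dvd.mul_right (mul_dvd_mul_left X ?_) _
    exact (pow_dvd_pow X (by omega)).trans hX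
  have h2 := inv_diff hfb h1 hdvd
  have hherm : (M + k0 • vecMulVec v v).IsHermitian := rankOne_isHermitian _ _ _ hM
  obtain ⟨w', l', hw', hl', hmom⟩ := mom_spectral _ hherm v (-(-k0)) 1 (fun y => by
      rw [rankOne_form]
      have h3 := hpos y
      have h4 := dot_sq_le v y
      rw [hv] at h4
      nlinarith) (fun y => by
      rw [rankOne_form]
      have h3 := hle y
      rw [hk0'] at h3
      linarith)
  refine ⟨ι, inferInstance, fun i => -k0 * w' i, l',
    fun i => mul_nonneg (by linarith) (hw' i), hl', fun n hn => ?_⟩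
  have h5 := PowerSeries.X_pow_dvd_iff.mp h2 (n + 1) (by omega)
  have e3 : (1 + C k0 * X * T : PowerSeries ℝ) = 1 + X * (C k0 * T) := by ring
  rw [map_sub, e3, map_add, coeff_succ_X_mul, coeff_C_mul, coeff_one, if_neg (by omega), hT, mser,
    coeff_mk, hmom n] at h5
  have e4 : ∑ i, -k0 * w' i * l' i ^ n = -k0 * ∑ i, w' i * l' i ^ n := by
    rw [Finset.mul_sum]
    refine Finset.sum_congr rfl fun i _ => ?_
    ring
  rw [e4]
  linarith

lemma types (k : ℕ) : ∀ A c : ℝ, 0 < c → -1 / 2 < A → (k : ℝ) ≤ 2 * A - 2 * c + 1 →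
    2 * A - 2 * c + 1 < k + 1 → TypeA (fs A c) ∨ TypeB (fs A c) := by
  induction k with
  | zero =>
    intro A c hc hA h1 h2
    right
    exact base A c hc (by simpa using h1) (by simpa using h2)
  | succ k ih =>
    intro A c hc hA h1 h2
    push_cast at h1 h2
    have hk : (0 : ℝ) ≤ k := Nat.cast_nonneg k
    have hA' : -1 / 2 < A - 1 / 2 := by linarith
    have hs := fs_step (A - 1 / 2) c hc (by linarith)
    have e : A - 1 / 2 + 1 / 2 = A := by ring
    rw [e] at hs
    have hc1 : 0 ≤ (2 * (A - 1 / 2) - 2 * c + 2) / (2 * (A - 1 / 2) + 1) :=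
      div_nonneg (by linarith) (by linarith)
    rcases ih (A - 1 / 2) c hc hA' (by linarith) (by linarith) with h | h
    · right
      exact stepAB _ _ _ hc1 h hs
    · left
      exact stepBA _ _ _ hc1 h hs

lemma types_all (A c : ℝ) (hc : 0 < c) (hA : -1 / 2 < A) (hj : 0 ≤ 2 * A - 2 * c + 1) :
    TypeA (fs A c) ∨ TypeB (fs A c) :=
  types ⌊2 * A - 2 * c + 1⌋₊ A c hc hA (Nat.floor_le hj) (Nat.lt_floor_add_one _)

end Pool.Agent.Lib.MP_0c4359_pr
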