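import Pool.Agent.Lib.MP_0c4359_pr.Cls

/-! The bound by the hyperbolic cosine. -/

namespace Pool.Agent.Lib.MP_0c4359_pr

open PowerSeries Filter Topology

/-- The even kernel. -/
noncomputable def ck (x l : ℝ) (n : ℕ) : ℝ := l ^ n * x ^ (2 * n) / ((2 * n).factorial : ℝ)

/-- The shifted even kernel. -/
noncomputable def dk (x l : ℝ) (n : ℕ) : ℝ :=
  l ^ n * x ^ (2 * (n + 1)) / ((2 * (n + 1)).factorial : ℝ)

lemma ck_summable_nonneg (x l : ℝ) (hl : 0 ≤ l) : Summable (ck x l) := by
  have h := Real.hasSum_cosh (Real.sqrt l * x)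
  refine h.summable.congr fun n => ?_
  unfold ck
  rw [mul_pow, pow_mul (Real.sqrt l), Real.sq_sqrt hl]

lemma ck_abs (x l : ℝ) (n : ℕ) : |ck x l n| = ck x |l| n := by
  unfold ck
  rw [abs_div, abs_mul, abs_pow, abs_of_nonneg (by positivity : (0:ℝ) ≤ ((2 * n).factorial : ℝ)),
    pow_mul x, abs_of_nonneg (by positivity : (0:ℝ) ≤ (x ^ 2) ^ n)]

lemma ck_summable (x l : ℝ) : Summable (ck x l) := by
  refine Summable.of_norm ?_
  refine (ck_summable_nonneg x |l| (abs_nonneg l)).congr fun n => ?_
  rw [Real.norm_eq_abs, ck_abs]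

lemma ck_le_cosh (x l : ℝ) (hl : l ≤ 1) : ∑' n, ck x l n ≤ Real.cosh x := by
  rcases le_or_gt 0 l with h | h
  · have h1 := Real.hasSum_cosh x
    rw [← h1.tsum_eq]
    refine (ck_summable x l).tsum_le_tsum (fun n => ?_) h1.summable
    unfold ck
    have h2 : l ^ n ≤ 1 := pow_le_one₀ h hl
    have h3 : 0 ≤ x ^ (2 * n) := by rw [pow_mul]; positivity
    gcongr
    nlinarith
  · have h1 := Real.hasSum_cos (Real.sqrt (-l) * x)
    have h2 : ∑' n, ck x l n = Real.cos (Real.sqrt (-l) * x) := by
      rw [← h1.tsum_eq]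
      refine tsum_congr fun n => ?_
      unfold ck
      rw [mul_pow, pow_mul (Real.sqrt (-l)), Real.sq_sqrt (by linarith), neg_pow l n]
      have : (-1 : ℝ) ^ n * ((-1) ^ n * l ^ n * x ^ (2 * n)) = l ^ n * x ^ (2 * n) := by
        rw [← mul_assoc, ← mul_assoc, ← mul_pow]
        simp
      rw [this]
    rw [h2]
    exact (Real.cos_le_one _).trans (Real.one_le_cosh _)

lemma dk_rel (x l : ℝ) (n : ℕ) : l * dk x l n = ck x l (n + 1) := by
  unfold ck dk
  rw [pow_succ]
  ring

lemma dk_summable_nonneg (x l : ℝ) (hl : 0 ≤ l) : Summable (dk x l) := by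
  have h := (summable_nat_add_iff 1).mpr (ck_summable_nonneg x (l + 1) (by linarith))
  refine Summable.of_nonneg_of_le (fun n => ?_) (fun n => ?_) h
  · unfold dk
    rw [pow_mul]
    positivity
  · unfold ck dk
    have h2 : l ^ n ≤ (l + 1) ^ (n + 1) := by
      calc l ^ n ≤ (l + 1) ^ n := by gcongr; linarith
        _ ≤ (l + 1) ^ (n + 1) := pow_le_pow_right₀ (by linarith) (Nat.le_succ n)
    have h3 : 0 ≤ x ^ (2 * (n + 1)) := by rw [pow_mul]; positivity
    gcongr

lemma dk_abs (x l : ℝ) (n : ℕ) : |dk x l n| = dk x |l| n := by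
  unfold dk
  rw [abs_div, abs_mul, abs_pow,
    abs_of_nonneg (by positivity : (0:ℝ) ≤ ((2 * (n + 1)).factorial : ℝ)),
    pow_mul x, abs_of_nonneg (by positivity : (0:ℝ) ≤ (x ^ 2) ^ (n + 1))]

lemma dk_summable (x l : ℝ) : Summable (dk x l) := by
  refine Summable.of_norm ?_
  refine (dk_summable_nonneg x |l| (abs_nonneg l)).congr fun n => ?_
  rw [Real.norm_eq_abs, dk_abs]

lemma dk_nonneg (x l : ℝ) : 0 ≤ ∑' n, dk x l n := by
  rcases le_or_gt 0 l with h | h
  · refine tsum_nonneg fun n => ?_
    unfold dk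
    rw [pow_mul]
    positivity
  · have h1 : ∑' n, ck x l n ≤ 1 := by
      have h1 := Real.hasSum_cos (Real.sqrt (-l) * x)
      have h2 : ∑' n, ck x l n = Real.cos (Real.sqrt (-l) * x) := by
        rw [← h1.tsum_eq]
        refine tsum_congr fun n => ?_
        unfold ck
        rw [mul_pow, pow_mul (Real.sqrt (-l)), Real.sq_sqrt (by linarith), neg_pow l n]
        have : (-1 : ℝ) ^ n * ((-1) ^ n * l ^ n * x ^ (2 * n)) = l ^ n * x ^ (2 * n) := by
          rw [← mul_assoc, ← mul_assoc, ← mul_pow]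
          simp
        rw [this]
      rw [h2]
      exact Real.cos_le_one _
    have h2 : ∑' n, ck x l n = 1 + l * ∑' n, dk x l n := by
      rw [(ck_summable x l).tsum_eq_zero_add, ← tsum_mul_left]
      congr 1
      · simp [ck]
      · exact tsum_congr fun n => (dk_rel x l n).symm
    by_contra hcon
    push Not at hcon
    have := mul_pos_of_neg_of_neg h hcon
    linarith

lemma partial_le (f : ℕ → ℝ) (hf : Summable f) (g : ℕ → ℝ) (hg : Summable g)
    (h : ∀ n, |f n| ≤ g n) (m : ℕ) :
    |∑ n ∈ Finset.range m, f n - ∑' n, f n| ≤ ∑' n, g (n + m) := by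
  have h1 := hf.sum_add_tsum_nat_add m
  have h2 : ∑ n ∈ Finset.range m, f n - ∑' n, f n = -∑' n, f (n + m) := by linarith
  rw [h2, abs_neg]
  have h3 : Summable fun n => g (n + m) := (summable_nat_add_iff m).mpr hg
  rw [← Real.norm_eq_abs]
  exact tsum_of_norm_bounded h3.hasSum fun n => by
    rw [Real.norm_eq_abs]
    exact h _

lemma tail_tendsto (g : ℕ → ℝ) : Tendsto (fun m => ∑' n, g (n + m)) atTop (𝓝 0) :=
  tendsto_sum_nat_add g

lemma mom_bound {R : ℝ} {f : ℕ → ℝ} (h : Mom R f) (n : ℕ) :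
    |f n| ≤ f 0 * (max 1 |R|) ^ n := by
  obtain ⟨ι, _, w, l, hw, hl, hfn⟩ := h (n + 1)
  rw [hfn n (by omega), hfn 0 (by omega), Finset.sum_mul]
  refine (Finset.abs_sum_le_sum_abs _ _).trans (Finset.sum_le_sum fun i _ => ?_)
  rw [abs_mul, abs_of_nonneg (hw i), abs_pow, pow_zero, mul_one]
  refine mul_le_mul_of_nonneg_left ?_ (hw i)
  refine pow_le_pow_left₀ (abs_nonneg _) ?_ n
  rw [abs_le]
  refine ⟨?_, (hl i).2.trans (le_max_left _ _)⟩
  have := (hl i).1
  have h2 : |R| ≤ max 1 |R| := le_max_right _ _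
  have h3 : R ≤ |R| := le_abs_self R
  linarith

lemma typeA_cosh (f : PowerSeries ℝ) (hf : TypeA f) (x : ℝ) :
    Summable (fun n => coeff n f * x ^ (2 * n) / ((2 * n).factorial : ℝ)) ∧
    ∑' n, coeff n f * x ^ (2 * n) / ((2 * n).factorial : ℝ) ≤ Real.cosh x := by
  obtain ⟨hf0, R, hR⟩ := hf
  set K := max 1 |R| with hK
  have hbd : ∀ n, |coeff n f| ≤ K ^ n := by
    intro n
    have := mom_bound hR n
    simp only [hf0, one_mul] at this
    exact this
  have hx : ∀ n, (0:ℝ) ≤ x ^ (2 * n) := fun n => by rw [pow_mul]; positivity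
  have hsum : Summable (fun n => coeff n f * x ^ (2 * n) / ((2 * n).factorial : ℝ)) := by
    refine Summable.of_norm_bounded (ck_summable x K) fun n => ?_
    rw [Real.norm_eq_abs, abs_div, abs_mul, abs_of_nonneg (hx n),
      abs_of_nonneg (by positivity : (0:ℝ) ≤ ((2 * n).factorial : ℝ))]
    unfold ck
    have := hx n
    gcongr
    exact hbd n
  refine ⟨hsum, ?_⟩
  have hlim := hsum.hasSum.tendsto_sum_nat
  have hlim2 : Tendsto (fun m => Real.cosh x + ∑' n, ck x K (n + m)) atTop
      (𝓝 (Real.cosh x + 0)) := tendsto_const_nhds.add (tail_tendsto _)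
  rw [add_zero] at hlim2
  refine le_of_tendsto_of_tendsto' hlim hlim2 fun m => ?_
  obtain ⟨ι, _, w, l, hw, hl, hfn⟩ := hR (m + 1)
  have hw1 : ∑ i, w i = 1 := by
    have := hfn 0 (by omega)
    simp only [hf0, pow_zero, mul_one] at this
    exact this.symm
  calc ∑ n ∈ Finset.range m, coeff n f * x ^ (2 * n) / ((2 * n).factorial : ℝ)
      = ∑ i, w i * ∑ n ∈ Finset.range m, ck x (l i) n := by
        simp only [Finset.mul_sum]
        rw [Finset.sum_comm]
        refine Finset.sum_congr rfl fun n hn => ?_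
        have e1 : coeff n f = ∑ i, w i * l i ^ n := hfn n (by
          have := Finset.mem_range.mp hn
          omega)
        rw [e1, Finset.sum_mul, Finset.sum_div]
        refine Finset.sum_congr rfl fun i _ => ?_
        unfold ck
        ring
    _ ≤ ∑ i, w i * (Real.cosh x + ∑' n, ck x K (n + m)) := by
        refine Finset.sum_le_sum fun i _ => mul_le_mul_of_nonneg_left ?_ (hw i)
        have h1 := partial_le (ck x (l i)) (ck_summable x _) (ck x K) (ck_summable x K)
          (fun n => by
            rw [ck_abs]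
            unfold ck
            have := hx n
            gcongr
            rw [abs_le]
            have h2 : |R| ≤ max 1 |R| := le_max_right _ _
            have h3 : R ≤ |R| := le_abs_self R
            have h4 := (hl i).1
            exact ⟨by linarith, (hl i).2.trans (le_max_left _ _)⟩) m
        have h2 := ck_le_cosh x (l i) (hl i).2
        have h3 := (abs_le.mp h1).2
        linarith
    _ = Real.cosh x + ∑' n, ck x K (n + m) := by
        rw [← Finset.sum_mul, hw1, one_mul]

lemma typeB_cosh (f : PowerSeries ℝ) (hf : TypeB f) (x : ℝ) :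
    Summable (fun n => coeff n f * x ^ (2 * n) / ((2 * n).factorial : ℝ)) ∧
    ∑' n, coeff n f * x ^ (2 * n) / ((2 * n).factorial : ℝ) ≤ Real.cosh x := by
  obtain ⟨hf0, R, hR⟩ := hf
  set u : ℕ → ℝ := fun n => -coeff (n + 1) f with hu
  set K := max 1 |R| with hK
  have hbd : ∀ n, |u n| ≤ u 0 * K ^ n := fun n => mom_bound hR n
  have hx : ∀ n, (0:ℝ) ≤ x ^ (2 * n) := fun n => by rw [pow_mul]; positivity
  have hsumu : Summable (fun n => u n * x ^ (2 * (n + 1)) / ((2 * (n + 1)).factorial : ℝ)) := by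
    refine Summable.of_norm_bounded ((dk_summable x K).mul_left (u 0)) fun n => ?_
    rw [Real.norm_eq_abs, abs_div, abs_mul, abs_of_nonneg (hx _),
      abs_of_nonneg (by positivity : (0:ℝ) ≤ ((2 * (n + 1)).factorial : ℝ))]
    unfold dk
    have h1 := hx (n + 1)
    have h2 := hbd n
    rw [← mul_div_assoc, ← mul_assoc]
    gcongr
  have hsum : Summable (fun n => coeff n f * x ^ (2 * n) / ((2 * n).factorial : ℝ)) := by
    rw [← summable_nat_add_iff 1]
    refine hsumu.neg.congr fun n => ?_
    simp only [hu]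
    ring
  refine ⟨hsum, ?_⟩
  have hE : ∑' n, coeff n f * x ^ (2 * n) / ((2 * n).factorial : ℝ)
      = 1 - ∑' n, u n * x ^ (2 * (n + 1)) / ((2 * (n + 1)).factorial : ℝ) := by
    rw [hsum.tsum_eq_zero_add, sub_eq_add_neg, ← tsum_neg]
    congr 1
    · rw [hf0]; simp
    · refine tsum_congr fun n => ?_
      simp only [hu]
      ring
  have hnn : 0 ≤ ∑' n, u n * x ^ (2 * (n + 1)) / ((2 * (n + 1)).factorial : ℝ) := by
    have hlim := hsumu.hasSum.tendsto_sum_nat
    have hlim2 : Tendsto (fun m => u 0 * (-∑' n, dk x K (n + m))) atTop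
        (𝓝 (u 0 * (-0))) := (tail_tendsto _).neg.const_mul _
    rw [neg_zero, mul_zero] at hlim2
    refine le_of_tendsto_of_tendsto' hlim2 hlim fun m => ?_
    obtain ⟨ι, _, w, l, hw, hl, hfn⟩ := hR (m + 1)
    have hw1 : u 0 = ∑ i, w i := by
      have := hfn 0 (by omega)
      simpa using this
    calc u 0 * (-∑' n, dk x K (n + m)) = ∑ i, w i * (-∑' n, dk x K (n + m)) := by
          rw [hw1, Finset.sum_mul]
      _ ≤ ∑ i, w i * ∑ n ∈ Finset.range m, dk x (l i) n := by
          refine Finset.sum_le_sum fun i _ => mul_le_mul_of_nonneg_left ?_ (hw i)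
          have h1 := partial_le (dk x (l i)) (dk_summable x _) (dk x K) (dk_summable x K)
            (fun n => by
              rw [dk_abs]
              unfold dk
              have := hx (n + 1)
              gcongr
              rw [abs_le]
              have h2 : |R| ≤ max 1 |R| := le_max_right _ _
              have h3 : R ≤ |R| := le_abs_self R
              have h4 := (hl i).1
              exact ⟨by linarith, (hl i).2.trans (le_max_left _ _)⟩) m
          have h2 := dk_nonneg x (l i)
          have h3 := (abs_le.mp h1).1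
          linarith
      _ = ∑ n ∈ Finset.range m, u n * x ^ (2 * (n + 1)) / ((2 * (n + 1)).factorial : ℝ) := by
          simp only [Finset.mul_sum]
          rw [Finset.sum_comm]
          refine Finset.sum_congr rfl fun n hn => ?_
          have e1 : u n = ∑ i, w i * l i ^ n := hfn n (by
            have := Finset.mem_range.mp hn
            omega)
          rw [e1, Finset.sum_mul, Finset.sum_div]
          refine Finset.sum_congr rfl fun i _ => ?_
          unfold dk
          ring
  rw [hE]
  have := Real.one_le_cosh x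
  linarith

lemma types_cosh (f : PowerSeries ℝ) (hf : TypeA f ∨ TypeB f) (x : ℝ) :
    Summable (fun n => coeff n f * x ^ (2 * n) / ((2 * n).factorial : ℝ)) ∧
    ∑' n, coeff n f * x ^ (2 * n) / ((2 * n).factorial : ℝ) ≤ Real.cosh x := by
  rcases hf with h | h
  · exact typeA_cosh f h x
  · exact typeB_cosh f h x

end Pool.Agent.Lib.MP_0c4359_pr
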