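import Mathlib

/-!
# Definitions for MP_0c4359_pr

The generalized McKay Bessel distribution and infinite divisibility.
-/

namespace Pool.Agent.Lib.MP_0c4359_pr

open MeasureTheory Set

/-- The modified Bessel function of the first kind
`I_μ(x) = Σ_{k ≥ 0} (x / 2) ^ (2 k + μ) / (k! Γ(k + μ + 1))`. -/
noncomputable def besselI (μ x : ℝ) : ℝ :=
  ∑' k : ℕ, (x / 2) ^ (2 * (k : ℝ) + μ) / ((k.factorial : ℝ) * Real.Gamma ((k : ℝ) + μ + 1))

/-- The unnormalised density `x ^ (ν - 1) e ^ (-b x) I_μ(a x)`. -/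
noncomputable def weight (μ ν a b x : ℝ) : ℝ :=
  x ^ (ν - 1) * Real.exp (-(b * x)) * besselI μ (a * x)

/-- The normalising constant, the integral of the unnormalised density over `(0, ∞)`. -/
noncomputable def normConst (μ ν a b : ℝ) : ℝ := ∫ x in Ioi (0 : ℝ), weight μ ν a b x

/-- The law on `(0, ∞)` with density `x ^ (ν - 1) e ^ (-b x) I_μ(a x) / c`. -/
noncomputable def law (μ ν a b : ℝ) : Measure ℝ :=
  (volume.restrict (Ioi (0 : ℝ))).withDensity fun x =>
    ENNReal.ofReal (weight μ ν a b x / normConst μ ν a b)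

/-- The `n`-fold convolution power of a measure on the line. -/
noncomputable def convPow (Q : Measure ℝ) : ℕ → Measure ℝ
  | 0 => Measure.dirac 0
  | n + 1 => (convPow Q n).conv Q

/-- Infinite divisibility: for every `n ≥ 1` the measure is the `n`-fold convolution power of
some probability measure. -/
def InfinitelyDivisible (P : Measure ℝ) : Prop :=
  ∀ n : ℕ, 1 ≤ n → ∃ Q : Measure ℝ, IsProbabilityMeasure Q ∧ convPow Q n = P

/-- The admissible region. -/
def admissible : Set (ℝ × ℝ) := {p | -1 < p.1 ∧ 0 < p.1 + p.2}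

end Pool.Agent.Lib.MP_0c4359_pr
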