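import Pool.Agent.Lib.MP_0c4359_pr.Meas

/-! The Levy measure, the compound Poisson part and the roots. -/

namespace Pool.Agent.Lib.MP_0c4359_pr

open MeasureTheory Set Filter Topology
open scoped ENNReal

/-- Terms of the Levy density. -/
noncomputable def hterm (A c a : ℝ) (n : ℕ) (x : ℝ) : ℝ :=
  PowerSeries.coeff (n + 1) (kap A c) * a ^ (2 * n + 2) * x ^ (2 * n + 1)
    / ((2 * n + 2).factorial : ℝ)

/-- The Levy density. -/
noncomputable def hfun (A c a x : ℝ) : ℝ := ∑' n, hterm A c a n x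

lemma hterm_mul (A c a x : ℝ) (n : ℕ) :
    x * hterm A c a n x = PowerSeries.coeff (n + 1) (kap A c) * (a * x) ^ (2 * (n + 1))
      / ((2 * (n + 1)).factorial : ℝ) := by
  unfold hterm
  have e : 2 * (n + 1) = 2 * n + 2 := by ring
  rw [e, mul_pow]
  ring

lemma hterm_summable (A c a x : ℝ) (hc : 0 < c) : Summable fun n => hterm A c a n x := by
  rcases eq_or_ne x 0 with rfl | hx
  · refine summable_zero.congr fun n => ?_
    unfold hterm
    rw [zero_pow (by omega)]
    simp
  · have h := (summable_nat_add_iff 1).mpr ((Bd_kap A c hc).summable (a * x))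
    refine (h.mul_left x⁻¹).congr fun n => ?_
    rw [← hterm_mul]
    field_simp

lemma hfun_nonneg (A c a x : ℝ) (hA : 0 < A) (hc : 0 < c) (hx : 0 < x) : 0 ≤ hfun A c a x := by
  have h1 := kfun_ge A c hc hA (a * x)
  unfold kfun at h1
  rw [((Bd_kap A c hc).summable (a * x)).tsum_eq_zero_add, kap_zero] at h1
  have h2 : ∑' n, PowerSeries.coeff (n + 1) (kap A c) * (a * x) ^ (2 * (n + 1))
      / ((2 * (n + 1)).factorial : ℝ) = x * hfun A c a x := by
    unfold hfun
    rw [← tsum_mul_left]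
    exact tsum_congr fun n => (hterm_mul A c a x n).symm
  rw [h2] at h1
  simp only [mul_zero, pow_zero, mul_one, Nat.factorial_zero, Nat.cast_one, div_one] at h1
  have h3 : 0 ≤ x * hfun A c a x := by linarith
  exact nonneg_of_mul_nonneg_right h3 hx

lemma hfun_meas (A c a : ℝ) (hc : 0 < c) : Measurable (hfun A c a) := by
  refine measurable_of_tendsto_metrizable (f := fun m x => ∑ n ∈ Finset.range m, hterm A c a n x)
    (fun m => ?_) (tendsto_pi_nhds.mpr fun x => (hterm_summable A c a x hc).hasSum.tendsto_sum_nat)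
  unfold hterm
  fun_prop

/-- The Levy measure. -/
noncomputable def eta0 (A c a : ℝ) : Measure ℝ :=
  (volume.restrict (Ioi (0 : ℝ))).withDensity fun x => ENNReal.ofReal (hfun A c a x)

instance (A c a : ℝ) : SFinite (eta0 A c a) := by unfold eta0; infer_instance

lemma hterm_int (A c a z : ℝ) (hz : 0 < z) (n : ℕ) :
    Integrable (fun x => hterm A c a n x * Real.exp (-(z * x))) (volume.restrict (Ioi (0 : ℝ))) ∧
    ∫ x in Ioi (0 : ℝ), hterm A c a n x * Real.exp (-(z * x))
      = lc A c (n + 1) * ((a / z) ^ 2) ^ (n + 1) ∧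
    ∫ x in Ioi (0 : ℝ), ‖hterm A c a n x * Real.exp (-(z * x))‖
      = |lc A c (n + 1) * ((a / z) ^ 2) ^ (n + 1)| := by
  have hs : (0 : ℝ) < 2 * n + 2 := by positivity
  have h := Real.integral_rpow_mul_exp_neg_mul_Ioi hs hz
  have hpos : 0 < (1 / z) ^ (2 * (n : ℝ) + 2) * Real.Gamma (2 * n + 2) := by
    have := Real.Gamma_pos_of_pos hs
    positivity
  have hint : Integrable (fun x : ℝ => x ^ ((2 * (n : ℝ) + 2) - 1) * Real.exp (-(z * x)))
      (volume.restrict (Ioi 0)) := by
    by_contra hcon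
    rw [integral_undef hcon] at h
    linarith
  set K := PowerSeries.coeff (n + 1) (kap A c) * a ^ (2 * n + 2) / ((2 * n + 2).factorial : ℝ)
    with hK
  have he : ∀ x : ℝ, hterm A c a n x * Real.exp (-(z * x))
      = K * (x ^ ((2 * (n : ℝ) + 2) - 1) * Real.exp (-(z * x))) := by
    intro x
    have e1 : x ^ ((2 * (n : ℝ) + 2) - 1) = x ^ (2 * n + 1) := by
      rw [← Real.rpow_natCast]
      congr 1
      push_cast
      ring
    rw [e1, hK]
    unfold hterm
    ring
  have hG : Real.Gamma (2 * (n : ℝ) + 2) = ((2 * n + 1).factorial : ℝ) := by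
    rw [← Real.Gamma_nat_eq_factorial]
    congr 1
    push_cast
    ring
  have hval : K * ((1 / z) ^ (2 * (n : ℝ) + 2) * Real.Gamma (2 * n + 2))
      = lc A c (n + 1) * ((a / z) ^ 2) ^ (n + 1) := by
    rw [hG, hK]
    unfold lc
    have e2 : (1 / z) ^ (2 * (n : ℝ) + 2) = (1 / z) ^ (2 * n + 2) := by
      rw [← Real.rpow_natCast]
      push_cast
      rfl
    rw [e2, ← pow_mul, Nat.factorial_succ]
    have e3 : 2 * (n + 1) = 2 * n + 2 := by ring
    rw [e3]
    push_cast
    have : ((2 * n + 1).factorial : ℝ) ≠ 0 := by positivity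
    rw [div_pow, div_pow]
    field_simp
    ring
  refine ⟨?_, ?_, ?_⟩
  · simp only [he]
    exact hint.const_mul K
  · simp only [he]
    rw [integral_const_mul, h, hval]
  · simp only [he, norm_mul, Real.norm_eq_abs]
    rw [integral_const_mul, ← hval, abs_mul, abs_of_pos hpos, ← h]
    congr 1
    refine setIntegral_congr_fun measurableSet_Ioi fun x hx => ?_
    have hx' : (0 : ℝ) < x := hx
    rw [abs_of_nonneg (by positivity : 0 ≤ x ^ ((2 * (n : ℝ) + 2) - 1)),
      abs_of_nonneg (Real.exp_pos _).le]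

lemma Lap_eta0 (A c a z : ℝ) (hA : 0 < A) (hc : 0 < c) (hz : 0 < z)
    (hs : Summable fun n => |PowerSeries.coeff n (kap A c) * ((a / z) ^ 2) ^ n|) :
    0 ≤ Lser A c ((a / z) ^ 2) ∧
    Lap (eta0 A c a) z = ENNReal.ofReal (Lser A c ((a / z) ^ 2)) := by
  have hsl : Summable fun n => |lc A c n * ((a / z) ^ 2) ^ n| := by
    refine Summable.of_nonneg_of_le (fun n => abs_nonneg _) (fun n => ?_) hs
    rw [abs_mul, abs_mul]
    exact mul_le_mul_of_nonneg_right (lc_abs A c n) (abs_nonneg _)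
  have hsl1 : Summable fun n => |lc A c (n + 1) * ((a / z) ^ 2) ^ (n + 1)| :=
    (summable_nat_add_iff 1).mpr hsl
  have hF : ∀ n, Integrable (fun x => hterm A c a n x * Real.exp (-(z * x)))
      (volume.restrict (Ioi (0 : ℝ))) := fun n => (hterm_int A c a z hz n).1
  have hsum := hasSum_integral_of_summable_integral_norm hF (by
    simp only [(hterm_int A c a z hz _).2.2]
    exact hsl1)
  simp only [(hterm_int A c a z hz _).2.1] at hsum
  have hL : ∫ x in Ioi (0 : ℝ), hfun A c a x * Real.exp (-(z * x)) = Lser A c ((a / z) ^ 2) := by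
    unfold Lser
    rw [hsl.of_abs.tsum_eq_zero_add, hsum.tsum_eq]
    have e0 : lc A c 0 * ((a / z) ^ 2) ^ 0 = 0 := by simp [lc]
    rw [e0, zero_add]
    unfold hfun
    simp only [tsum_mul_right]
  have hnn : 0 ≤ᵐ[volume.restrict (Ioi (0 : ℝ))] fun x => hfun A c a x * Real.exp (-(z * x)) := by
    refine (ae_restrict_iff' measurableSet_Ioi).mpr (Eventually.of_forall fun x hx => ?_)
    exact mul_nonneg (hfun_nonneg A c a x hA hc hx) (Real.exp_pos _).le
  have hmeas : Measurable fun x => hfun A c a x * Real.exp (-(z * x)) :=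
    (hfun_meas A c a hc).mul (by fun_prop)
  have hint : Integrable (fun x => hfun A c a x * Real.exp (-(z * x)))
      (volume.restrict (Ioi (0 : ℝ))) := by
    refine ⟨hmeas.aestronglyMeasurable, ?_⟩
    unfold HasFiniteIntegral
    calc ∫⁻ x in Ioi (0 : ℝ), ‖hfun A c a x * Real.exp (-(z * x))‖ₑ
        ≤ ∫⁻ x in Ioi (0 : ℝ), ∑' n, ‖hterm A c a n x * Real.exp (-(z * x))‖ₑ := by
          refine lintegral_mono fun x => ?_
          unfold hfun
          rw [← tsum_mul_right]
          exact enorm_tsum_le_tsum_enorm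
      _ = ∑' n, ∫⁻ x in Ioi (0 : ℝ), ‖hterm A c a n x * Real.exp (-(z * x))‖ₑ :=
          lintegral_tsum fun n => (hF n).1.enorm
      _ = ∑' n, ENNReal.ofReal |lc A c (n + 1) * ((a / z) ^ 2) ^ (n + 1)| := by
          refine tsum_congr fun n => ?_
          rw [← (hterm_int A c a z hz n).2.2, ofReal_integral_norm_eq_lintegral_enorm (hF n)]
      _ < ∞ := by
          rw [← ENNReal.ofReal_tsum_of_nonneg (fun n => abs_nonneg _) hsl1]
          exact ENNReal.ofReal_lt_top
  constructor
  · rw [← hL]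
    exact integral_nonneg_of_ae hnn
  · rw [← hL, ofReal_integral_eq_lintegral_ofReal hint hnn]
    unfold Lap eta0
    rw [lintegral_withDensity_eq_lintegral_mul _ (hfun_meas A c a hc).ennreal_ofReal (ew_meas _)]
    refine lintegral_congr fun x => ?_
    rw [Pi.mul_apply, ew, ENNReal.ofReal_mul' (Real.exp_pos _).le, neg_mul]

/-- The gamma part. -/
noncomputable def G0 (s : ℝ) : Measure ℝ :=
  (volume.restrict (Ioi (0 : ℝ))).withDensity fun x =>
    ENNReal.ofReal ((Real.Gamma s)⁻¹ * x ^ (s - 1))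

instance (s : ℝ) : SFinite (G0 s) := by unfold G0; infer_instance

lemma Lap_G0 (s z : ℝ) (hs : 0 < s) (hz : 0 < z) : Lap (G0 s) z = ENNReal.ofReal ((1 / z) ^ s) := by
  have hG := Real.Gamma_pos_of_pos hs
  unfold Lap G0
  rw [lintegral_withDensity_eq_lintegral_mul _ (by fun_prop) (ew_meas _)]
  have e1 : ∀ x : ℝ, ((fun x : ℝ => ENNReal.ofReal ((Real.Gamma s)⁻¹ * x ^ (s - 1))) * ew (-z)) x
      = ENNReal.ofReal (Real.Gamma s)⁻¹ *
        ENNReal.ofReal (x ^ (s - 1) * Real.exp (-(z * x))) := by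
    intro x
    rw [Pi.mul_apply, ew, ENNReal.ofReal_mul (inv_nonneg.mpr hG.le), mul_assoc,
      ENNReal.ofReal_mul' (Real.exp_pos _).le, neg_mul]
  simp only [e1]
  rw [lintegral_const_mul _ (by fun_prop), lint_gamma s z hs hz,
    ← ENNReal.ofReal_mul (inv_nonneg.mpr hG.le)]
  congr 1
  field_simp

/-- The compound Poisson part. -/
noncomputable def E0 (m : Measure ℝ) : Measure ℝ :=
  Measure.sum fun k : ℕ => ((k.factorial : ℝ≥0∞))⁻¹ • convPow m k

instance (m : Measure ℝ) [SFinite m] : SFinite (E0 m) := by unfold E0; infer_instance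

lemma Lap_E0 (m : Measure ℝ) [SFinite m] (z L : ℝ) (hL : 0 ≤ L)
    (h : Lap m z = ENNReal.ofReal L) : Lap (E0 m) z = ENNReal.ofReal (Real.exp L) := by
  unfold E0
  rw [Lap_sum]
  have e1 : ∀ k : ℕ, Lap (((k.factorial : ℝ≥0∞))⁻¹ • convPow m k) z
      = ENNReal.ofReal (L ^ k / (k.factorial : ℝ)) := by
    intro k
    rw [Lap_smul, Lap_convPow, h, ← ENNReal.ofReal_pow hL, div_eq_inv_mul,
      ENNReal.ofReal_mul (by positivity), ENNReal.ofReal_inv_of_pos (by positivity),
      ENNReal.ofReal_natCast]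
  simp only [e1]
  rw [← ENNReal.ofReal_tsum_of_nonneg (fun k => by positivity)
    (Real.summable_pow_div_factorial L)]
  congr 1
  rw [Real.exp_eq_exp_ℝ, NormedSpace.exp_eq_tsum_div]

end Pool.Agent.Lib.MP_0c4359_pr
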