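import Pool.Agent.Lib.MP_0c4359_pr.Cosh

/-! Growth bounds and positivity of the canonical function. -/

namespace Pool.Agent.Lib.MP_0c4359_pr

open PowerSeries Filter Topology
open Finset.HasAntidiagonal (antidiagonal)

/-- Geometric growth of the coefficients. -/
def Bd (f : PowerSeries ℝ) : Prop :=
  ∃ K ρ : ℝ, 0 ≤ K ∧ 0 ≤ ρ ∧ ∀ n, |coeff n f| ≤ K * ρ ^ n

lemma hyp_bound (a b c : ℝ) (hc : 0 < c) (n : ℕ) :
    |hyp a b c n| ≤ ((|a| + 1) * (|b| / c + 1)) ^ n := by
  unfold hyp
  rw [Finset.abs_prod]
  calc ∏ i ∈ Finset.range n, |(a + i) * (b + i) / ((i + 1) * (c + i))|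
      ≤ ∏ i ∈ Finset.range n, ((|a| + 1) * (|b| / c + 1)) := by
        refine Finset.prod_le_prod (fun i _ => abs_nonneg _) fun i _ => ?_
        have hi : (0:ℝ) ≤ i := Nat.cast_nonneg i
        have h1 : |a + i| / (i + 1) ≤ |a| + 1 := by
          rw [div_le_iff₀ (by positivity)]
          have := abs_add_le a i
          rw [abs_of_nonneg hi] at this
          have h2 : 0 ≤ |a| * i := by positivity
          nlinarith
        have h2 : |b + i| / (c + i) ≤ |b| / c + 1 := by
          rw [div_le_iff₀ (by positivity)]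
          have := abs_add_le b i
          rw [abs_of_nonneg hi] at this
          have h3 : (|b| / c + 1) * (c + i) = |b| + |b| / c * i + c + i := by
            field_simp
            ring
          rw [h3]
          have h4 : 0 ≤ |b| / c * i := by positivity
          linarith
        have e : |(a + i) * (b + i) / ((i + 1) * (c + i))|
            = (|a + i| / (i + 1)) * (|b + i| / (c + i)) := by
          rw [abs_div, abs_mul, abs_of_nonneg (by positivity : (0:ℝ) ≤ (i + 1) * (c + i))]
          rw [mul_div_mul_comm]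
        rw [e]
        gcongr
    _ = _ := by rw [Finset.prod_const, Finset.card_range]

lemma Bd_Fs (a b c : ℝ) (hc : 0 < c) : Bd (Fs a b c) := by
  refine ⟨1, (|a| + 1) * (|b| / c + 1), zero_le_one, by positivity, fun n => ?_⟩
  rw [coeff_Fs, one_mul]
  exact hyp_bound a b c hc n

lemma Bd_C (r : ℝ) : Bd (C r) := by
  refine ⟨|r|, 0, abs_nonneg _, le_refl _, fun n => ?_⟩
  rw [coeff_C]
  split_ifs with h
  · rw [h, pow_zero, mul_one]
  · rw [abs_zero]; positivity

lemma Bd_mul {f g : PowerSeries ℝ} (hf : Bd f) (hg : Bd g) : Bd (f * g) := by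
  obtain ⟨K1, ρ1, hK1, hρ1, h1⟩ := hf
  obtain ⟨K2, ρ2, hK2, hρ2, h2⟩ := hg
  set ρ := max ρ1 ρ2 with hρ
  have hρ0 : 0 ≤ ρ := le_max_of_le_left hρ1
  refine ⟨K1 * K2, 2 * ρ, by positivity, by positivity, fun n => ?_⟩
  rw [coeff_mul]
  calc |∑ p ∈ antidiagonal n, coeff p.1 f * coeff p.2 g|
      ≤ ∑ p ∈ antidiagonal n, |coeff p.1 f * coeff p.2 g| := Finset.abs_sum_le_sum_abs _ _
    _ ≤ ∑ p ∈ antidiagonal n, K1 * K2 * ρ ^ n := by
        refine Finset.sum_le_sum fun p hp => ?_
        have hp' : p.1 + p.2 = n := by simpa using hp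
        rw [abs_mul]
        calc |coeff p.1 f| * |coeff p.2 g| ≤ (K1 * ρ1 ^ p.1) * (K2 * ρ2 ^ p.2) := by
              gcongr
              · exact h1 _
              · exact h2 _
          _ ≤ (K1 * ρ ^ p.1) * (K2 * ρ ^ p.2) := by
              gcongr
              · exact le_max_left _ _
              · exact le_max_right _ _
          _ = K1 * K2 * ρ ^ n := by rw [← hp', pow_add]; ring
    _ = (n + 1) * (K1 * K2 * ρ ^ n) := by
        rw [Finset.sum_const, Finset.Nat.card_antidiagonal, nsmul_eq_mul]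
        push_cast
        ring
    _ ≤ 2 ^ n * (K1 * K2 * ρ ^ n) := by
        have h3 : (n + 1 : ℝ) ≤ 2 ^ n := by
          have := Nat.lt_two_pow_self (n := n)
          exact_mod_cast this
        gcongr
    _ = K1 * K2 * (2 * ρ) ^ n := by rw [mul_pow]; ring

lemma Bd_inv {f : PowerSeries ℝ} (hf : Bd f) (h0 : coeff 0 f = 1) : Bd f⁻¹ := by
  obtain ⟨K, ρ, hK, hρ, h1⟩ := hf
  have hc : constantCoeff f ≠ 0 := by
    rw [← coeff_zero_eq_constantCoeff_apply, h0]
    exact one_ne_zero
  have hfi : f * f⁻¹ = 1 := PowerSeries.mul_inv_cancel f hc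
  set g := f⁻¹ with hg
  have hg0 : coeff 0 g = 1 := by
    have := congrArg (coeff 0) hfi
    rw [coeff_mul] at this
    simpa [h0] using this
  have hrec : ∀ n, coeff (n + 1) g = -∑ p ∈ antidiagonal n, coeff (p.1 + 1) f * coeff p.2 g := by
    intro n
    have := congrArg (coeff (n + 1)) hfi
    rw [coeff_mul, Finset.Nat.sum_antidiagonal_succ, coeff_one, if_neg (by omega), h0] at this
    linarith
  refine ⟨1, (1 + K) * ρ, zero_le_one, by positivity, fun n => ?_⟩
  rw [one_mul]
  induction n using Nat.strong_induction_on with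
  | _ n ih =>
    cases n with
    | zero => rw [hg0]; simp
    | succ n =>
      rw [hrec, abs_neg]
      calc |∑ p ∈ antidiagonal n, coeff (p.1 + 1) f * coeff p.2 g|
          ≤ ∑ p ∈ antidiagonal n, |coeff (p.1 + 1) f * coeff p.2 g| :=
            Finset.abs_sum_le_sum_abs _ _
        _ ≤ ∑ p ∈ antidiagonal n, ρ ^ (n + 1) * (K * (1 + K) ^ p.2) := by
            refine Finset.sum_le_sum fun p hp => ?_
            have hp' : p.1 + p.2 = n := by simpa using hp
            rw [abs_mul]
            calc |coeff (p.1 + 1) f| * |coeff p.2 g|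
                ≤ (K * ρ ^ (p.1 + 1)) * ((1 + K) * ρ) ^ p.2 := by
                  gcongr
                  · exact h1 _
                  · exact ih p.2 (by omega)
              _ = ρ ^ (n + 1) * (K * (1 + K) ^ p.2) := by
                  rw [← hp', mul_pow]
                  have : ρ ^ (p.1 + p.2 + 1) = ρ ^ (p.1 + 1) * ρ ^ p.2 := by
                    rw [← pow_add]
                    congr 1
                    omega
                  rw [this]
                  ring
        _ = ρ ^ (n + 1) * ((1 + K) ^ (n + 1) - 1) := by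
            rw [← Finset.mul_sum]
            congr 1
            rw [Finset.Nat.sum_antidiagonal_eq_sum_range_succ (fun _ k => K * (1 + K) ^ k) n]
            have h4 : ∑ k ∈ Finset.range n.succ, K * (1 + K) ^ (n - k)
                = ∑ k ∈ Finset.range n.succ, K * (1 + K) ^ k := by
              have := Finset.sum_range_reflect (fun k => K * (1 + K) ^ k) (n + 1)
              simpa using this
            rw [h4, ← Finset.mul_sum]
            have h5 := geom_sum_mul (1 + K) (n + 1)
            rw [← h5]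
            ring
        _ ≤ ((1 + K) * ρ) ^ (n + 1) := by
            rw [mul_pow]
            have : 0 ≤ ρ ^ (n + 1) := by positivity
            nlinarith

lemma Bd_kap (A c : ℝ) (hc : 0 < c) : Bd (kap A c) := by
  unfold kap
  exact Bd_mul (Bd_mul (Bd_C _) (Bd_Fs _ _ _ hc)) (Bd_inv (Bd_Fs _ _ _ hc)
    (by rw [coeff_Fs, hyp_zero]))

lemma Bd.summable {f : PowerSeries ℝ} (hf : Bd f) (x : ℝ) :
    Summable (fun n => coeff n f * x ^ (2 * n) / ((2 * n).factorial : ℝ)) := by
  obtain ⟨K, ρ, hK, hρ, h1⟩ := hf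
  have hx : ∀ n, (0:ℝ) ≤ x ^ (2 * n) := fun n => by rw [pow_mul]; positivity
  refine Summable.of_norm_bounded ((ck_summable x ρ).mul_left K) fun n => ?_
  rw [Real.norm_eq_abs, abs_div, abs_mul, abs_of_nonneg (hx n),
    abs_of_nonneg (by positivity : (0:ℝ) ≤ ((2 * n).factorial : ℝ))]
  unfold ck
  have h2 := hx n
  rw [← mul_div_assoc, ← mul_assoc]
  gcongr
  exact h1 n

/-- The canonical function. -/
noncomputable def kfun (A c x : ℝ) : ℝ :=
  ∑' n, coeff n (kap A c) * x ^ (2 * n) / ((2 * n).factorial : ℝ)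

lemma kap_zero (A c : ℝ) : coeff 0 (kap A c) = 2 * A := by
  have h := congrArg constantCoeff (kap_mul A c)
  rw [map_mul, map_mul, Fs_const, Fs_const, constantCoeff_C] at h
  rw [coeff_zero_eq_constantCoeff_apply]
  linarith

lemma kap_low_coeff (A c : ℝ) (hc : 0 < c) (n : ℕ) :
    coeff n (kap A c) = 2 * A * (1 - (c - (A + 1 / 2)) / c *
      ∑ i ∈ Finset.range n, coeff i (Rs A (A + 1 / 2) c)) := by
  induction n with
  | zero => rw [kap_zero]; simp
  | succ n ih =>
    have h := congrArg (coeff (n + 1)) (kap_low A c hc)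
    have e : (1 - X) * kap A c = kap A c - X * kap A c := by ring
    have e2 : (1 - C ((c - (A + 1 / 2)) / c) * X * Rs A (A + 1 / 2) c : PowerSeries ℝ)
      = 1 - X * (C ((c - (A + 1 / 2)) / c) * Rs A (A + 1 / 2) c) := by ring
    rw [e, e2, map_sub, coeff_succ_X_mul, coeff_C_mul, map_sub, coeff_succ_X_mul, coeff_C_mul,
      coeff_one, if_neg (by omega), ih] at h
    rw [Finset.sum_range_succ]
    linear_combination h

lemma kap_high_coeff (A c : ℝ) (hc : 0 < c) (n : ℕ) :
    coeff n (kap A c) = (4 * A - 2 * c + 1) - (2 * A - 2 * c + 1) * coeff n (fs (A - 1 / 2) c) := by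
  have hh := kap_high (A - 1 / 2) c hc
  have e1 : A - 1 / 2 + 1 / 2 = A := by ring
  have e2 : 2 * (A - 1 / 2) - 2 * c + 2 = 2 * A - 2 * c + 1 := by ring
  have e3 : 4 * (A - 1 / 2) - 2 * c + 3 = 4 * A - 2 * c + 1 := by ring
  rw [e1, e2, e3] at hh
  set Z := kap A c + C (2 * A - 2 * c + 1) * fs (A - 1 / 2) c with hZ
  have hZn : ∀ n, coeff n Z = 4 * A - 2 * c + 1 := by
    intro n
    have e : (1 - X) * Z = Z - X * Z := by ring
    rw [e] at hh
    induction n with
    | zero =>
      have := congrArg (coeff 0) hh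
      rwa [map_sub, coeff_zero_X_mul, coeff_zero_C, sub_zero] at this
    | succ n ih =>
      have := congrArg (coeff (n + 1)) hh
      rw [map_sub, coeff_succ_X_mul, coeff_C, if_neg (by omega), ih] at this
      linarith
  have h1 := hZn n
  rw [hZ, map_add, coeff_C_mul] at h1
  linarith

lemma kfun_ge (A c : ℝ) (hc : 0 < c) (hA : 0 < A) (x : ℝ) : 2 * A ≤ kfun A c x := by
  have hsum := (Bd_kap A c hc).summable x
  have hx : ∀ n, (0:ℝ) ≤ x ^ (2 * n) := fun n => by rw [pow_mul]; positivity
  rcases lt_or_ge A c with h | h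
  · have hgood : Good A (A + 1 / 2) c :=
      ⟨by linarith, by linarith, hc, h, by linarith⟩
    have hnn : ∀ n, 0 ≤ coeff n (kap A c) := by
      intro n
      rw [kap_low_coeff A c hc]
      have h1 := Rs_sum_le n A (A + 1 / 2) c hgood
      have e : 1 - (A + 1 / 2) / c = (c - (A + 1 / 2)) / c := by field_simp
      rw [e] at h1
      exact mul_nonneg (by linarith) (by linarith)
    unfold kfun
    rw [hsum.tsum_eq_zero_add, kap_zero]
    have h2 : 0 ≤ ∑' n, coeff (n + 1) (kap A c) * x ^ (2 * (n + 1))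
        / ((2 * (n + 1)).factorial : ℝ) := by
      refine tsum_nonneg fun n => ?_
      have h3 := hx (n + 1)
      have h4 := hnn (n + 1)
      positivity
    simp only [mul_zero, pow_zero, mul_one, Nat.factorial_zero, Nat.cast_one, div_one]
    linarith
  · have ht := types_all (A - 1 / 2) c hc (by linarith) (by linarith)
    obtain ⟨hs, hle⟩ := types_cosh _ ht x
    have hcosh := Real.hasSum_cosh x
    have e : kfun A c x = (4 * A - 2 * c + 1) * Real.cosh x - (2 * A - 2 * c + 1) *
        ∑' n, coeff n (fs (A - 1 / 2) c) * x ^ (2 * n) / ((2 * n).factorial : ℝ) := by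
      unfold kfun
      rw [← tsum_mul_left, ← hcosh.tsum_eq, ← tsum_mul_left,
        ← (hcosh.summable.mul_left _).tsum_sub (hs.mul_left _)]
      refine tsum_congr fun n => ?_
      rw [kap_high_coeff A c hc]
      ring
    rw [e]
    have h1 := mul_le_mul_of_nonneg_left hle (by linarith : 0 ≤ 2 * A - 2 * c + 1)
    have h2 := Real.one_le_cosh x
    nlinarith

end Pool.Agent.Lib.MP_0c4359_pr
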