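import Pool.Agent.Lib.MP_0c4359_pr.Defs

/-! Laplace transforms of measures, tilting, uniqueness. -/

namespace Pool.Agent.Lib.MP_0c4359_pr

open MeasureTheory Set ProbabilityTheory Complex
open scoped ENNReal

/-- The exponential weight. -/
noncomputable def ew (s x : ℝ) : ℝ≥0∞ := ENNReal.ofReal (Real.exp (s * x))

lemma ew_meas (s : ℝ) : Measurable (ew s) := by
  unfold ew
  fun_prop

lemma ew_add (s x y : ℝ) : ew s (x + y) = ew s x * ew s y := by
  unfold ew
  rw [← ENNReal.ofReal_mul (Real.exp_pos _).le, ← Real.exp_add]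
  congr 2
  ring

lemma ew_add' (s t x : ℝ) : ew (s + t) x = ew s x * ew t x := by
  unfold ew
  rw [← ENNReal.ofReal_mul (Real.exp_pos _).le, ← Real.exp_add]
  congr 2
  ring

lemma ew_zero (x : ℝ) : ew 0 x = 1 := by simp [ew]

/-- The Laplace transform. -/
noncomputable def Lap (m : Measure ℝ) (t : ℝ) : ℝ≥0∞ := ∫⁻ x, ew (-t) x ∂m

/-- Exponential tilting. -/
noncomputable def tilt (s : ℝ) (m : Measure ℝ) : Measure ℝ := m.withDensity (ew s)

instance (s : ℝ) (m : Measure ℝ) [SFinite m] : SFinite (tilt s m) := by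
  unfold tilt
  infer_instance

lemma lintegral_tilt (s : ℝ) (m : Measure ℝ) (f : ℝ → ℝ≥0∞) (hf : Measurable f) :
    ∫⁻ x, f x ∂(tilt s m) = ∫⁻ x, ew s x * f x ∂m := by
  unfold tilt
  rw [lintegral_withDensity_eq_lintegral_mul _ (ew_meas s) hf]
  rfl

lemma tilt_tilt (s t : ℝ) (m : Measure ℝ) : tilt s (tilt t m) = tilt (s + t) m := by
  refine Measure.ext_of_lintegral _ fun f hf => ?_
  have hsf : Measurable (fun x => ew s x * f x) := (ew_meas s).mul hf
  rw [lintegral_tilt _ _ _ hf, lintegral_tilt _ _ _ hsf, lintegral_tilt _ _ _ hf]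
  refine lintegral_congr fun x => ?_
  rw [ew_add']
  ring

lemma tilt_zero (m : Measure ℝ) : tilt 0 m = m := by
  refine Measure.ext_of_lintegral _ fun f hf => ?_
  rw [lintegral_tilt _ _ _ hf]
  refine lintegral_congr fun x => ?_
  rw [ew_zero, one_mul]

lemma tilt_conv (s : ℝ) (m n : Measure ℝ) [SFinite m] [SFinite n] :
    tilt s (m.conv n) = (tilt s m).conv (tilt s n) := by
  refine Measure.ext_of_lintegral _ fun f hf => ?_
  have hsf : Measurable (fun x => ew s x * f x) := (ew_meas s).mul hf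
  rw [lintegral_tilt _ _ _ hf, Measure.lintegral_conv hsf, Measure.lintegral_conv hf]
  have h1 : Measurable fun x => ∫⁻ y, f (x + y) ∂(tilt s n) :=
    Measurable.lintegral_prod_right' (f := fun p : ℝ × ℝ => f (p.1 + p.2)) (by fun_prop)
  rw [lintegral_tilt _ _ _ h1]
  refine lintegral_congr fun x => ?_
  rw [lintegral_tilt _ _ _ (by fun_prop), ← lintegral_const_mul _ (by
    have := ew_meas s
    fun_prop)]
  refine lintegral_congr fun y => ?_
  rw [ew_add]
  ring

instance convPow_sfinite (Q : Measure ℝ) [SFinite Q] (n : ℕ) : SFinite (convPow Q n) := by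
  induction n with
  | zero => unfold convPow; infer_instance
  | succ n ih => unfold convPow; infer_instance

lemma tilt_convPow (s : ℝ) (Q : Measure ℝ) [SFinite Q] (n : ℕ) :
    tilt s (convPow Q n) = convPow (tilt s Q) n := by
  induction n with
  | zero =>
    unfold convPow
    refine Measure.ext_of_lintegral _ fun f hf => ?_
    have hsf : Measurable (fun x => ew s x * f x) := (ew_meas s).mul hf
    rw [lintegral_tilt _ _ _ hf, lintegral_dirac' _ hsf, lintegral_dirac' _ hf]
    simp [ew]
  | succ n ih =>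
    rw [convPow, tilt_conv, ih, convPow]

lemma Lap_conv (m n : Measure ℝ) [SFinite m] [SFinite n] (t : ℝ) :
    Lap (m.conv n) t = Lap m t * Lap n t := by
  unfold Lap
  have hm := ew_meas (-t)
  rw [Measure.lintegral_conv (ew_meas _), ← lintegral_mul_const _ hm]
  refine lintegral_congr fun x => ?_
  rw [← lintegral_const_mul _ hm]
  exact lintegral_congr fun y => ew_add _ _ _

lemma Lap_convPow (Q : Measure ℝ) [SFinite Q] (n : ℕ) (t : ℝ) :
    Lap (convPow Q n) t = Lap Q t ^ n := by
  induction n with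
  | zero =>
    unfold convPow Lap
    rw [lintegral_dirac' _ (ew_meas _)]
    simp [ew]
  | succ n ih => rw [convPow, Lap_conv, ih, pow_succ]

lemma Lap_smul (c : ℝ≥0∞) (m : Measure ℝ) (t : ℝ) : Lap (c • m) t = c * Lap m t := by
  unfold Lap
  rw [lintegral_smul_measure, smul_eq_mul]

lemma Lap_sum {ι : Type} (m : ι → Measure ℝ) (t : ℝ) :
    Lap (Measure.sum m) t = ∑' i, Lap (m i) t := by
  unfold Lap
  rw [lintegral_sum_measure]

lemma Lap_tilt (s : ℝ) (m : Measure ℝ) (t : ℝ) : Lap (tilt s m) t = Lap m (t - s) := by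
  unfold Lap
  rw [lintegral_tilt _ _ _ (ew_meas _)]
  refine lintegral_congr fun x => ?_
  rw [← ew_add']
  congr 1
  ring

lemma Lap_zero (m : Measure ℝ) : Lap m 0 = m univ := by
  unfold Lap
  simp [ew_zero]

lemma integrable_of_Lap {m : Measure ℝ} {t : ℝ} (h : Lap m t ≠ ∞) :
    Integrable (fun x => Real.exp (-t * x)) m := by
  refine ⟨by fun_prop, ?_⟩
  rw [hasFiniteIntegral_iff_ofReal (Filter.Eventually.of_forall fun x => (Real.exp_pos _).le)]
  exact lt_of_le_of_ne le_top h

lemma mgf_of_Lap {m : Measure ℝ} {t : ℝ} :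
    mgf id m (-t) = (Lap m t).toReal := by
  unfold mgf Lap ew
  simp only [id]
  rw [integral_eq_lintegral_of_nonneg_ae
    (Filter.Eventually.of_forall fun x => (Real.exp_pos _).le) (by fun_prop)]

lemma Lap_uniq_aux (m n : Measure ℝ) [IsFiniteMeasure m] [IsFiniteMeasure n]
    (h : ∀ t : ℝ, |t| < 1 → Lap m t = Lap n t) (hf : ∀ t : ℝ, |t| < 1 → Lap m t ≠ ∞) :
    m = n := by
  have hsub : ∀ p : Measure ℝ, (∀ t : ℝ, |t| < 1 → Lap p t ≠ ∞) →
      Ioo (-1 : ℝ) 1 ⊆ interior (integrableExpSet id p) := by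
    intro p hp
    refine interior_maximal (fun t ht => ?_) isOpen_Ioo
    have h1 : |-t| < 1 := by rw [abs_neg, abs_lt]; exact ht
    have h2 := integrable_of_Lap (hp (-t) h1)
    simpa [integrableExpSet] using h2
  have hfn : ∀ t : ℝ, |t| < 1 → Lap n t ≠ ∞ := fun t ht => by rw [← h t ht]; exact hf t ht
  set U : Set ℂ := {z | z.re ∈ Ioo (-1 : ℝ) 1} with hU
  have hUc : IsPreconnected U := by
    have : Convex ℝ U := (convex_Ioo (-1 : ℝ) 1).linear_preimage (Complex.reLm)
    exact this.isPreconnected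
  have ham : AnalyticOnNhd ℂ (complexMGF id m) U :=
    analyticOnNhd_complexMGF.mono fun z hz => hsub m hf hz
  have han : AnalyticOnNhd ℂ (complexMGF id n) U :=
    analyticOnNhd_complexMGF.mono fun z hz => hsub n hfn hz
  have h0 : (0 : ℂ) ∈ U := by simp [hU]
  have hreal : ∀ t : ℝ, |t| < 1 → complexMGF id m t = complexMGF id n t := by
    intro t ht
    have ht' : |-t| < 1 := by rwa [abs_neg]
    rw [complexMGF_ofReal, complexMGF_ofReal]
    have e1 := mgf_of_Lap (m := m) (t := -t)
    have e2 := mgf_of_Lap (m := n) (t := -t)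
    rw [neg_neg] at e1 e2
    rw [e1, e2, h (-t) ht']
  have hfreq : ∃ᶠ z in nhdsWithin (0 : ℂ) {0}ᶜ, complexMGF id m z = complexMGF id n z := by
    have hseq : Filter.Tendsto (fun k : ℕ => (((1 : ℝ) / (k + 2) : ℝ) : ℂ)) Filter.atTop
        (nhdsWithin (0 : ℂ) {0}ᶜ) := by
      rw [tendsto_nhdsWithin_iff]
      constructor
      · have h1 : Filter.Tendsto (fun k : ℕ => (1 : ℝ) / ((k : ℝ) + 2)) Filter.atTop (nhds 0) := by
          have := (tendsto_one_div_add_atTop_nhds_zero_nat (𝕜 := ℝ)).comp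
            (Filter.tendsto_add_atTop_nat 1)
          refine this.congr fun k => ?_
          simp only [Function.comp]
          push_cast
          ring
        have h2 := (Complex.continuous_ofReal.tendsto 0).comp h1
        simpa [Function.comp_def] using h2
      · refine Filter.Eventually.of_forall fun k => ?_
        simp only [mem_compl_iff, mem_singleton_iff, ofReal_eq_zero]
        positivity
    refine hseq.frequently (Filter.Frequently.of_forall fun k => ?_)
    refine hreal _ ?_
    rw [abs_of_nonneg (by positivity), div_lt_one (by positivity)]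
    have : (0 : ℝ) ≤ k := Nat.cast_nonneg k
    linarith
  have heq : EqOn (complexMGF id m) (complexMGF id n) U :=
    ham.eqOn_of_preconnected_of_frequently_eq han hUc h0 hfreq
  refine Measure.ext_of_charFun ?_
  ext t
  rw [← complexMGF_id_mul_I, ← complexMGF_id_mul_I]
  exact heq (by simp [hU])

lemma Lap_uniq (m n : Measure ℝ) (z : ℝ) (h : ∀ t : ℝ, z < t → Lap m t = Lap n t)
    (hf : ∀ t : ℝ, z < t → Lap m t ≠ ∞) : m = n := by
  have hfm : IsFiniteMeasure (tilt (-(z + 1)) m) := by
    refine ⟨?_⟩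
    rw [← Lap_zero, Lap_tilt]
    exact lt_of_le_of_ne le_top (hf _ (by linarith))
  have hfn : IsFiniteMeasure (tilt (-(z + 1)) n) := by
    refine ⟨?_⟩
    rw [← Lap_zero, Lap_tilt, ← h _ (by linarith)]
    exact lt_of_le_of_ne le_top (hf _ (by linarith))
  have key : tilt (-(z + 1)) m = tilt (-(z + 1)) n := by
    refine Lap_uniq_aux _ _ (fun t ht => ?_) (fun t ht => ?_)
    · rw [Lap_tilt, Lap_tilt]
      exact h _ (by linarith [(abs_lt.mp ht).1])
    · rw [Lap_tilt]
      exact hf _ (by linarith [(abs_lt.mp ht).1])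
  have h1 := congrArg (tilt (z + 1)) key
  rw [tilt_tilt, tilt_tilt] at h1
  simpa [tilt_zero] using h1

lemma convPow_smul (c : ℝ≥0∞) (Q : Measure ℝ) [SFinite Q] [SFinite (c • Q)] (n : ℕ) :
    convPow (c • Q) n = c ^ n • convPow Q n := by
  induction n with
  | zero => simp [convPow]
  | succ n ih =>
    rw [convPow, ih, Measure.conv_smul_left, Measure.conv_comm, Measure.conv_smul_left,
      Measure.conv_comm, smul_smul, convPow, pow_succ]

end Pool.Agent.Lib.MP_0c4359_pr
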