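import Pool.Agent.Lib.MP_0c4359_pr.Eta

/-! Infinite divisibility of the law for all admissible parameters. -/

namespace Pool.Agent.Lib.MP_0c4359_pr

open MeasureTheory Set Filter Topology
open scoped ENNReal

lemma hyp_pos (A c : ℝ) (hA : 0 < A) (hc : 0 < c) (n : ℕ) : 0 < hyp A (A + 1 / 2) c n := by
  unfold hyp
  refine Finset.prod_pos fun i _ => ?_
  have hi : (0 : ℝ) ≤ i := Nat.cast_nonneg i
  positivity

lemma hyp_summable (A c w : ℝ) (hA : 0 < A) (hc : 0 < c) (hw : 0 < w) (hw1 : w < 1) :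
    Summable fun n => |hyp A (A + 1 / 2) c n * w ^ n| := by
  have hpos : ∀ n, 0 < hyp A (A + 1 / 2) c n * w ^ n := fun n =>
    mul_pos (hyp_pos A c hA hc n) (by positivity)
  have hs : Summable fun n => hyp A (A + 1 / 2) c n * w ^ n := by
    refine summable_of_ratio_test_tendsto_lt_one hw1
      (Eventually.of_forall fun n => (hpos n).ne') ?_
    have h1 : ∀ x y : ℝ, Tendsto (fun n : ℕ => (x + n) / (y + (n : ℝ))) atTop (𝓝 1) := by
      intro x y
      have h2 : Tendsto (fun n : ℕ => 1 + (x - y) / (y + (n : ℝ))) atTop (𝓝 (1 + 0)) := by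
        refine tendsto_const_nhds.add (tendsto_const_nhds.div_atTop ?_)
        exact tendsto_atTop_add_const_left _ y tendsto_natCast_atTop_atTop
      rw [add_zero] at h2
      refine h2.congr' ?_
      have h3 : ∀ᶠ n : ℕ in atTop, 0 < y + (n : ℝ) :=
        (tendsto_atTop_add_const_left _ y tendsto_natCast_atTop_atTop).eventually_gt_atTop 0
      filter_upwards [h3] with n hn
      field_simp
      ring
    have h4 : Tendsto (fun n : ℕ => ((A + n) / (1 + (n : ℝ))) *
        ((A + 1 / 2 + n) / (c + (n : ℝ))) * w) atTop (𝓝 (1 * 1 * w)) :=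
      ((h1 A 1).mul (h1 (A + 1 / 2) c)).mul_const w
    rw [one_mul, one_mul] at h4
    refine h4.congr fun n => ?_
    rw [Real.norm_eq_abs, Real.norm_eq_abs, abs_of_pos (hpos _), abs_of_pos (hpos _), hyp_succ,
      pow_succ]
    have h5 := hyp_pos A c hA hc n
    have h6 : 0 < w ^ n := by positivity
    have hn : (0 : ℝ) ≤ n := Nat.cast_nonneg n
    generalize hyp A (A + 1 / 2) c n = H at h5 ⊢
    have h7 : (0:ℝ) < 1 + n := by positivity
    have h8 : (0:ℝ) < c + n := by positivity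
    field_simp
    ring
  exact hs.abs

/-- The normalising factor. -/
noncomputable def C0 (μ ν a : ℝ) : ℝ := (a / 2) ^ μ * Real.Gamma (μ + ν) / Real.Gamma (μ + 1)

lemma C0_pos (μ ν a : ℝ) (hμ : -1 < μ) (hν : 0 < μ + ν) (ha : 0 < a) : 0 < C0 μ ν a := by
  have h1 : 0 < Real.Gamma (μ + 1) := Real.Gamma_pos_of_pos (by linarith)
  have h2 : 0 < Real.Gamma (μ + ν) := Real.Gamma_pos_of_pos hν
  unfold C0
  positivity

/-- The convolution roots without exponential factor. -/
noncomputable def W0 (μ ν a : ℝ) (N : ℕ) : Measure ℝ :=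
  ENNReal.ofReal ((C0 μ ν a) ^ ((N : ℝ)⁻¹)) •
    (G0 ((μ + ν) / N)).conv (E0 ((N : ℝ≥0∞)⁻¹ • eta0 ((μ + ν) / 2) (μ + 1) a))

instance (μ ν a : ℝ) (N : ℕ) : SFinite (W0 μ ν a N) := by unfold W0; infer_instance

lemma W0_pow (μ ν a : ℝ) (N : ℕ) (hN : 1 ≤ N) (hμ : -1 < μ) (hν : 0 < μ + ν) (ha : 0 < a) :
    convPow (W0 μ ν a N) N = m0 μ ν a := by
  have hc : 0 < μ + 1 := by linarith
  have hA : 0 < (μ + ν) / 2 := by linarith
  have hNp : (0 : ℝ) < N := by exact_mod_cast hN
  have hN0 : N ≠ 0 := by omega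
  obtain ⟨r, hr, hr1⟩ := exp_formula ((μ + ν) / 2) (μ + 1) hc
  have key : ∀ z : ℝ, a / Real.sqrt r < z →
      ∃ L : ℝ, 0 ≤ L ∧ Lap (eta0 ((μ + ν) / 2) (μ + 1) a) z = ENNReal.ofReal L ∧ 0 < z ∧
      Lap (m0 μ ν a) z = ENNReal.ofReal (C0 μ ν a * (1 / z) ^ (μ + ν) * Real.exp L) := by
    intro z hz
    have hsr : 0 < Real.sqrt r := Real.sqrt_pos.mpr hr
    have hz0 : 0 < z := lt_trans (by positivity) hz
    have hw : (a / z) ^ 2 < r := by
      have h1 : a / z < Real.sqrt r := by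
        rw [div_lt_iff₀ hz0]
        rw [div_lt_iff₀ hsr] at hz
        linarith
      have h2 : 0 < a / z := by positivity
      calc (a / z) ^ 2 < Real.sqrt r ^ 2 := by gcongr
        _ = r := Real.sq_sqrt hr.le
    obtain ⟨h3, h4, h5⟩ := hr1 ((a / z) ^ 2) (by positivity) hw
    obtain ⟨h6, h7⟩ := Lap_eta0 ((μ + ν) / 2) (μ + 1) a z hA hc hz0 h5
    refine ⟨_, h6, h7, hz0, ?_⟩
    rw [Lap_m0 μ ν a z hμ hν ha hz0 h4, h3]
    rfl
  symm
  refine Lap_uniq _ _ (a / Real.sqrt r) (fun z hz => ?_) (fun z hz => ?_)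
  · obtain ⟨L, hL, h1, hz0, h2⟩ := key z hz
    rw [h2, Lap_convPow, W0, Lap_smul, Lap_conv, Lap_G0 _ _ (by positivity) hz0]
    have h3 : Lap ((N : ℝ≥0∞)⁻¹ • eta0 ((μ + ν) / 2) (μ + 1) a) z = ENNReal.ofReal (L / N) := by
      rw [Lap_smul, h1, div_eq_inv_mul, ENNReal.ofReal_mul (by positivity),
        ENNReal.ofReal_inv_of_pos hNp, ENNReal.ofReal_natCast]
    rw [Lap_E0 _ z (L / N) (by positivity) h3]
    have hC := C0_pos μ ν a hμ hν ha
    rw [← ENNReal.ofReal_mul (by positivity), ← ENNReal.ofReal_mul (by positivity),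
      ← ENNReal.ofReal_pow (by positivity), mul_pow, mul_pow, Real.rpow_inv_natCast_pow hC.le hN0,
      ← Real.rpow_natCast, ← Real.rpow_mul (by positivity), ← Real.exp_nat_mul]
    congr 1
    have e1 : (μ + ν) / (N : ℝ) * N = μ + ν := by field_simp
    have e2 : (N : ℝ) * (L / N) = L := by field_simp
    rw [e1, e2]
    ring
  · obtain ⟨L, hL, h1, hz0, h2⟩ := key z hz
    rw [h2]
    exact ENNReal.ofReal_ne_top

theorem law_infDiv (μ ν a b : ℝ) (hμ : -1 < μ) (hν : 0 < μ + ν) (ha : 0 < a) (hab : a < b) :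
    InfinitelyDivisible (law μ ν a b) := by
  have hc : 0 < μ + 1 := by linarith
  have hA : 0 < (μ + ν) / 2 := by linarith
  have hb : 0 < b := ha.trans hab
  have hC := C0_pos μ ν a hμ hν ha
  set mb : Measure ℝ := tilt (-b) (m0 μ ν a) with hmb
  have hmb' := tilt_m0 μ ν a b hμ ha
  have hw1 : (a / b) ^ 2 < 1 := by
    have h1 : a / b < 1 := by rwa [div_lt_one hb]
    have h2 : 0 < a / b := by positivity
    nlinarith
  have hs := hyp_summable ((μ + ν) / 2) (μ + 1) ((a / b) ^ 2) hA hc (by positivity) hw1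
  set T : ℝ := C0 μ ν a * (1 / b) ^ (μ + ν) * Pser ((μ + ν) / 2) (μ + 1) ((a / b) ^ 2) with hT
  have hPpos : 0 < Pser ((μ + ν) / 2) (μ + 1) ((a / b) ^ 2) := by
    unfold Pser
    exact hs.of_abs.tsum_pos (fun n => (mul_pos (hyp_pos _ _ hA hc n) (by positivity)).le) 0
      (mul_pos (hyp_pos _ _ hA hc 0) (by positivity))
  have hTpos : 0 < T := by positivity
  have hmass : mb univ = ENNReal.ofReal T := by
    rw [← Lap_zero, hmb, Lap_tilt, zero_sub, neg_neg, Lap_m0 μ ν a b hμ hν ha hb hs]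
    rfl
  have hmeas : AEMeasurable (fun x => weight μ ν a b x) (volume.restrict (Ioi (0 : ℝ))) := by
    have h1 : AEMeasurable (fun x => (ew (-b) x * dens μ ν a x).toReal)
        (volume.restrict (Ioi (0 : ℝ))) :=
      ((ew_meas _).mul (dens_meas μ ν a)).ennreal_toReal.aemeasurable
    refine h1.congr ?_
    refine (ae_restrict_iff' measurableSet_Ioi).mpr (Eventually.of_forall fun x hx => ?_)
    have hx' : (0 : ℝ) < x := hx
    simp only
    rw [← weight_eq μ ν a b x hμ ha hx', ENNReal.toReal_ofReal]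
    unfold weight besselI
    refine mul_nonneg (by positivity) (tsum_nonneg fun k => ?_)
    have hG : 0 < Real.Gamma ((k : ℝ) + μ + 1) := by
      refine Real.Gamma_pos_of_pos ?_
      have : (0 : ℝ) ≤ k := Nat.cast_nonneg k
      linarith
    positivity
  have hnn : 0 ≤ᵐ[volume.restrict (Ioi (0 : ℝ))] fun x => weight μ ν a b x := by
    refine (ae_restrict_iff' measurableSet_Ioi).mpr (Eventually.of_forall fun x hx => ?_)
    have hx' : (0 : ℝ) < x := hx
    unfold weight besselI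
    refine mul_nonneg (by positivity) (tsum_nonneg fun k => ?_)
    have hG : 0 < Real.Gamma ((k : ℝ) + μ + 1) := by
      refine Real.Gamma_pos_of_pos ?_
      have : (0 : ℝ) ≤ k := Nat.cast_nonneg k
      linarith
    positivity
  have hlint : ∫⁻ x in Ioi (0 : ℝ), ENNReal.ofReal (weight μ ν a b x) = ENNReal.ofReal T := by
    rw [← hmass, hmb, hmb', withDensity_apply _ MeasurableSet.univ, Measure.restrict_univ]
  have hnc : normConst μ ν a b = T := by
    unfold normConst
    rw [integral_eq_lintegral_of_nonneg_ae hnn hmeas.aestronglyMeasurable, hlint,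
      ENNReal.toReal_ofReal hTpos.le]
  have hlaw : law μ ν a b = (ENNReal.ofReal T)⁻¹ • mb := by
    unfold law
    rw [hmb, hmb', hnc, ← withDensity_smul' _ _ (ENNReal.inv_ne_top.mpr (by
      simpa using hTpos))]
    refine withDensity_congr_ae (Eventually.of_forall fun x => ?_)
    simp only [Pi.smul_apply, smul_eq_mul]
    rw [div_eq_inv_mul, ENNReal.ofReal_mul (by positivity), ENNReal.ofReal_inv_of_pos hTpos]
  intro N hN
  have hN0 : N ≠ 0 := by omega
  set Wb : Measure ℝ := tilt (-b) (W0 μ ν a N) with hWb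
  have hpow : convPow Wb N = mb := by
    rw [hWb, ← tilt_convPow, W0_pow μ ν a N hN hμ hν ha]
  have hmassW : (Wb univ) ^ N = ENNReal.ofReal T := by
    rw [← hmass, ← hpow, ← Lap_zero, ← Lap_zero, Lap_convPow]
  have hM0 : Wb univ ≠ 0 := by
    intro h0
    rw [h0, zero_pow hN0] at hmassW
    have : ENNReal.ofReal T ≠ 0 := by simpa using hTpos
    exact this hmassW.symm
  have hMt : Wb univ ≠ ∞ := by
    intro h0
    rw [h0, ENNReal.top_pow hN0] at hmassW
    exact ENNReal.ofReal_ne_top hmassW.symm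
  refine ⟨(Wb univ)⁻¹ • Wb, ⟨?_⟩, ?_⟩
  · rw [Measure.smul_apply, smul_eq_mul, ENNReal.inv_mul_cancel hM0 hMt]
  · rw [convPow_smul, hpow, ← ENNReal.inv_pow, hmassW, hlaw]

end Pool.Agent.Lib.MP_0c4359_pr
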