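import Mathlib

/-! Finite matrices, their moments, rank one perturbations and bordering. -/

namespace Pool.Agent.Lib.MP_0c4359_pr

open Matrix PowerSeries
open Finset.HasAntidiagonal (antidiagonal)

section

variable {ι : Type} [Fintype ι] [DecidableEq ι]

/-- The moments of a matrix at a vector. -/
noncomputable def mom (M : Matrix ι ι ℝ) (v : ι → ℝ) (n : ℕ) : ℝ := v ⬝ᵥ ((M ^ n) *ᵥ v)

/-- The generating series of the moments. -/
noncomputable def mser (M : Matrix ι ι ℝ) (v : ι → ℝ) : PowerSeries ℝ := PowerSeries.mk (mom M v)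

lemma mom_spectral (M : Matrix ι ι ℝ) (hM : M.IsHermitian) (v : ι → ℝ) (a b : ℝ)
    (ha : ∀ x : ι → ℝ, a * (x ⬝ᵥ x) ≤ x ⬝ᵥ (M *ᵥ x))
    (hb : ∀ x : ι → ℝ, x ⬝ᵥ (M *ᵥ x) ≤ b * (x ⬝ᵥ x)) :
    ∃ w l : ι → ℝ, (∀ i, 0 ≤ w i) ∧ (∀ i, a ≤ l i ∧ l i ≤ b) ∧
      ∀ n, mom M v n = ∑ i, w i * l i ^ n := by
  set e : ι → ι → ℝ := fun i => ⇑(hM.eigenvectorBasis i) with he
  have hee : ∀ i, e i ⬝ᵥ e i = 1 := by
    intro i
    have h := hM.eigenvectorBasis.orthonormal.1 i
    have h2 := EuclideanSpace.inner_eq_star_dotProduct (hM.eigenvectorBasis i) (hM.eigenvectorBasis i)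
    rw [real_inner_self_eq_norm_sq, h] at h2
    simpa [he] using h2.symm
  have hMe : ∀ i, M *ᵥ e i = hM.eigenvalues i • e i := fun i => hM.mulVec_eigenvectorBasis i
  have hMn : ∀ n i, (M ^ n) *ᵥ e i = (hM.eigenvalues i) ^ n • e i := by
    intro n i
    induction n with
    | zero => simp
    | succ n ih =>
      rw [pow_succ', ← mulVec_mulVec, ih, mulVec_smul, hMe, smul_smul, pow_succ]
  have hv : v = ∑ i, (e i ⬝ᵥ v) • e i := by
    have h := hM.eigenvectorBasis.sum_repr (WithLp.toLp 2 v)
    have h2 : ∀ i, hM.eigenvectorBasis.repr (WithLp.toLp 2 v) i = e i ⬝ᵥ v := by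
      intro i
      rw [hM.eigenvectorBasis.repr_apply_apply, EuclideanSpace.inner_eq_star_dotProduct]
      simp [he, dotProduct_comm]
    have h3 := congrArg (WithLp.ofLp) h
    simp only [h2] at h3
    conv_lhs => rw [← h3]
    ext j
    simp [he]
  refine ⟨fun i => (e i ⬝ᵥ v) ^ 2, hM.eigenvalues, fun i => sq_nonneg _, fun i => ?_, fun n => ?_⟩
  · have h1 := ha (e i)
    have h2 := hb (e i)
    rw [hMe, dotProduct_smul, hee] at h1 h2
    simp at h1 h2
    exact ⟨h1, h2⟩
  · unfold mom
    have h4 : (M ^ n) *ᵥ v = ∑ i, ((e i ⬝ᵥ v) * (hM.eigenvalues i) ^ n) • e i := by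
      conv_lhs => rw [hv]
      rw [Matrix.mulVec_sum]
      refine Finset.sum_congr rfl fun i _ => ?_
      rw [mulVec_smul, hMn, smul_smul]
    rw [h4, dotProduct_sum]
    refine Finset.sum_congr rfl fun i _ => ?_
    rw [dotProduct_smul, dotProduct_comm v, smul_eq_mul]
    ring

omit [DecidableEq ι] in
lemma rankOne_mulVec (v x : ι → ℝ) (k : ℝ) :
    (k • vecMulVec v v) *ᵥ x = (k * (v ⬝ᵥ x)) • v := by
  rw [smul_mulVec, vecMulVec_mulVec]
  ext i
  simp [mul_comm, mul_left_comm]

lemma pow_rankOne (M : Matrix ι ι ℝ) (v : ι → ℝ) (k : ℝ) (n : ℕ) :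
    ((M + k • vecMulVec v v) ^ (n + 1)) *ᵥ v =
      (M ^ (n + 1)) *ᵥ v + k • ∑ p ∈ antidiagonal n,
        mom (M + k • vecMulVec v v) v p.1 • ((M ^ p.2) *ᵥ v) := by
  induction n with
  | zero =>
    simp only [zero_add, pow_one, add_mulVec, rankOne_mulVec]
    simp [mom, smul_smul]
  | succ n ih =>
    rw [pow_succ', ← mulVec_mulVec, add_mulVec, rankOne_mulVec, Finset.Nat.sum_antidiagonal_succ']
    have h1 : M *ᵥ (((M + k • vecMulVec v v) ^ (n + 1)) *ᵥ v) =
        (M ^ (n + 2)) *ᵥ v + k • ∑ p ∈ antidiagonal n,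
        mom (M + k • vecMulVec v v) v p.1 • ((M ^ (p.2 + 1)) *ᵥ v) := by
      rw [ih, mulVec_add, mulVec_smul, Matrix.mulVec_sum, mulVec_mulVec, ← pow_succ']
      congr 2
      refine Finset.sum_congr rfl fun p _ => ?_
      rw [mulVec_smul, mulVec_mulVec, ← pow_succ']
    rw [h1]
    simp only [mom, pow_zero, one_mulVec, smul_add, smul_smul]
    abel

lemma mser_rankOne (M : Matrix ι ι ℝ) (v : ι → ℝ) (k : ℝ) :
    mser (M + k • vecMulVec v v) v * (1 - C k * X * mser M v) = mser M v := by
  have h : mser (M + k • vecMulVec v v) v =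
      mser M v + X * (C k * (mser (M + k • vecMulVec v v) v * mser M v)) := by
    ext n
    cases n with
    | zero => simp [mser, mom]
    | succ n =>
      rw [map_add, coeff_succ_X_mul, coeff_C_mul, coeff_mul]
      simp only [mser, coeff_mk]
      unfold mom
      rw [pow_rankOne, dotProduct_add, dotProduct_smul, dotProduct_sum]
      simp only [dotProduct_smul, smul_eq_mul, mom]
  calc mser (M + k • vecMulVec v v) v * (1 - C k * X * mser M v)
      = mser (M + k • vecMulVec v v) v
        - X * (C k * (mser (M + k • vecMulVec v v) v * mser M v)) := by ring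
    _ = mser M v := by
        nth_rewrite 1 [h]
        ring

/-- The bordered matrix. -/
def border (b : ℝ) (z : ι → ℝ) (M : Matrix ι ι ℝ) : Matrix (Option ι) (Option ι) ℝ :=
  Matrix.of fun i j =>
    match i, j with
    | none, none => b
    | none, some j => z j
    | some i, none => z i
    | some i, some j => M i j

/-- The first basis vector. -/
def e0 : Option ι → ℝ := fun o => o.elim 1 (fun _ => 0)

omit [DecidableEq ι] in
lemma border_mulVec_none (b : ℝ) (z : ι → ℝ) (M : Matrix ι ι ℝ) (x : Option ι → ℝ) :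
    (border b z M *ᵥ x) none = b * x none + z ⬝ᵥ (fun i => x (some i)) := by
  simp [border, mulVec, dotProduct, Fintype.sum_option]

omit [DecidableEq ι] in
lemma border_mulVec_some (b : ℝ) (z : ι → ℝ) (M : Matrix ι ι ℝ) (x : Option ι → ℝ) :
    (fun i => (border b z M *ᵥ x) (some i)) = x none • z + M *ᵥ (fun i => x (some i)) := by
  ext i
  simp [border, mulVec, dotProduct, Fintype.sum_option, mul_comm]

omit [DecidableEq ι] in
lemma dot_option (x y : Option ι → ℝ) :
    x ⬝ᵥ y = x none * y none + (fun i => x (some i)) ⬝ᵥ (fun i => y (some i)) := by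
  simp [dotProduct, Fintype.sum_option]

omit [DecidableEq ι] in
lemma e0_dot (x : Option ι → ℝ) : (e0 : Option ι → ℝ) ⬝ᵥ x = x none := by
  simp [e0, dotProduct]

omit [Fintype ι] [DecidableEq ι] in
lemma border_isHermitian (b : ℝ) (z : ι → ℝ) (M : Matrix ι ι ℝ) (hM : M.IsHermitian) :
    (border b z M).IsHermitian := by
  ext i j
  have h := fun i j => hM.apply i j
  simp only [star_trivial] at h
  cases i <;> cases j <;> simp [border, h]

omit [DecidableEq ι] in
lemma border_form (b : ℝ) (z : ι → ℝ) (M : Matrix ι ι ℝ) (x : Option ι → ℝ) :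
    x ⬝ᵥ (border b z M *ᵥ x) = b * x none ^ 2 + 2 * x none * (z ⬝ᵥ (fun i => x (some i)))
      + (fun i => x (some i)) ⬝ᵥ (M *ᵥ (fun i => x (some i))) := by
  rw [dot_option, border_mulVec_none, border_mulVec_some, dotProduct_add, dotProduct_smul,
    dotProduct_comm _ z, smul_eq_mul]
  ring

lemma pow_border (b : ℝ) (z : ι → ℝ) (M : Matrix ι ι ℝ) (n : ℕ) :
    (fun i => ((border b z M ^ (n + 1)) *ᵥ e0) (some i)) =
      ∑ p ∈ antidiagonal n, mom (border b z M) e0 p.1 • ((M ^ p.2) *ᵥ z) := by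
  induction n with
  | zero =>
    rw [pow_succ', ← mulVec_mulVec, border_mulVec_some]
    have h0 : (fun i : ι => (e0 : Option ι → ℝ) (some i)) = 0 := by
      ext i
      simp [e0]
    simp [mom, e0_dot, h0]
  | succ n ih =>
    rw [pow_succ', ← mulVec_mulVec, border_mulVec_some, ih, Finset.Nat.sum_antidiagonal_succ',
      Matrix.mulVec_sum, pow_zero, one_mulVec]
    refine congrArg₂ (· + ·) ?_ ?_
    · simp [mom, e0_dot]
    · refine Finset.sum_congr rfl fun p _ => ?_
      rw [mulVec_smul, mulVec_mulVec, ← pow_succ']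

lemma mser_border (b : ℝ) (z : ι → ℝ) (M : Matrix ι ι ℝ) :
    mser (border b z M) e0 * (1 - C b * X - X ^ 2 * mser M z) = 1 := by
  have hs : ∀ n, mom (border b z M) e0 (n + 1) = b * mom (border b z M) e0 n
      + z ⬝ᵥ (fun i => ((border b z M ^ n) *ᵥ e0) (some i)) := by
    intro n
    simp only [mom, e0_dot]
    rw [pow_succ', ← mulVec_mulVec, border_mulVec_none]
  have h : mser (border b z M) e0 = 1 + X * (C b * mser (border b z M) e0
      + X * (mser (border b z M) e0 * mser M z)) := by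
    ext n
    cases n with
    | zero => simp [mser, mom, e0_dot, e0]
    | succ n =>
      rw [map_add, coeff_succ_X_mul, map_add, coeff_C_mul, coeff_one, if_neg (by omega), zero_add]
      simp only [mser, coeff_mk]
      rw [hs]
      congr 1
      cases n with
      | zero => simp [e0, dotProduct]
      | succ n =>
        rw [coeff_succ_X_mul, coeff_mul, pow_border, dotProduct_sum]
        simp [coeff_mk, mom]
  calc mser (border b z M) e0 * (1 - C b * X - X ^ 2 * mser M z)
      = mser (border b z M) e0 - X * (C b * mser (border b z M) e0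
      + X * (mser (border b z M) e0 * mser M z)) := by ring
    _ = 1 := by
        nth_rewrite 1 [h]
        ring

end

end Pool.Agent.Lib.MP_0c4359_pr
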