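import Pool.Agent.Lib.MP_0c4359_pr.Ana
import Pool.Agent.Lib.MP_0c4359_pr.Lap

/-! The measures and their Laplace transforms. -/

namespace Pool.Agent.Lib.MP_0c4359_pr

open MeasureTheory Set Filter Topology
open scoped ENNReal

lemma lint_gamma (s z : ℝ) (hs : 0 < s) (hz : 0 < z) :
    ∫⁻ x in Ioi (0 : ℝ), ENNReal.ofReal (x ^ (s - 1) * Real.exp (-(z * x)))
      = ENNReal.ofReal ((1 / z) ^ s * Real.Gamma s) := by
  have h := Real.integral_rpow_mul_exp_neg_mul_Ioi hs hz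
  have hpos : 0 < (1 / z) ^ s * Real.Gamma s := by
    have := Real.Gamma_pos_of_pos hs
    positivity
  have hint : Integrable (fun x : ℝ => x ^ (s - 1) * Real.exp (-(z * x)))
      (volume.restrict (Ioi 0)) := by
    by_contra hcon
    rw [integral_undef hcon] at h
    linarith
  rw [← h, ofReal_integral_eq_lintegral_ofReal hint]
  refine (ae_restrict_iff' measurableSet_Ioi).mpr (Eventually.of_forall fun x hx => ?_)
  have hx' : (0 : ℝ) < x := hx
  positivity

lemma Gam_lb (c : ℝ) (hc : 0 < c) (k : ℕ) :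
    min 1 c * Real.Gamma c ≤ Real.Gamma ((k : ℝ) + c) := by
  have hG := Real.Gamma_pos_of_pos hc
  have h1 : ∀ k : ℕ, c * Real.Gamma c ≤ Real.Gamma ((k + 1 : ℕ) + c) := by
    intro k
    induction k with
    | zero =>
      have := Real.Gamma_add_one hc.ne'
      rw [zero_add, Nat.cast_one, add_comm, this]
    | succ k ih =>
      have hp : 0 < ((k + 1 : ℕ) : ℝ) + c := by positivity
      have := Real.Gamma_add_one hp.ne'
      have e : ((k + 1 + 1 : ℕ) : ℝ) + c = ((k + 1 : ℕ) : ℝ) + c + 1 := by push_cast; ring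
      rw [e, this]
      have h2 : 1 ≤ ((k + 1 : ℕ) : ℝ) + c := by
        push_cast
        have : (0 : ℝ) ≤ k := Nat.cast_nonneg k
        linarith
      have h3 := Real.Gamma_pos_of_pos hp
      nlinarith
  cases k with
  | zero =>
    rw [Nat.cast_zero, zero_add]
    have := min_le_left 1 c
    nlinarith
  | succ k =>
    refine le_trans ?_ (h1 k)
    gcongr
    exact min_le_right _ _

/-- Coefficients of the Bessel series. -/
noncomputable def dco (μ a : ℝ) (k : ℕ) : ℝ :=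
  (a / 2) ^ (2 * (k : ℝ) + μ) / ((k.factorial : ℝ) * Real.Gamma ((k : ℝ) + μ + 1))

lemma dco_pos (μ a : ℝ) (hμ : -1 < μ) (ha : 0 < a) (k : ℕ) : 0 < dco μ a k := by
  unfold dco
  have h : 0 < Real.Gamma ((k : ℝ) + μ + 1) := by
    refine Real.Gamma_pos_of_pos ?_
    have : (0 : ℝ) ≤ k := Nat.cast_nonneg k
    linarith
  positivity

lemma rpow_split (y μ : ℝ) (hy : 0 < y) (k : ℕ) :
    y ^ (2 * (k : ℝ) + μ) = y ^ μ * (y ^ 2) ^ k := by
  rw [add_comm, Real.rpow_add hy, ← pow_mul]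
  congr 1
  rw [← Real.rpow_natCast]
  push_cast
  rfl

lemma bessel_summable (μ y : ℝ) (hμ : -1 < μ) (hy : 0 < y) :
    Summable fun k : ℕ =>
      y ^ (2 * (k : ℝ) + μ) / ((k.factorial : ℝ) * Real.Gamma ((k : ℝ) + μ + 1)) := by
  have hc : 0 < μ + 1 := by linarith
  have hm : 0 < min 1 (μ + 1) * Real.Gamma (μ + 1) := by
    have := Real.Gamma_pos_of_pos hc
    have h2 : 0 < min 1 (μ + 1) := lt_min one_pos hc
    positivity
  have h1 : Summable fun k : ℕ => (y ^ μ / (min 1 (μ + 1) * Real.Gamma (μ + 1))) *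
      ((y ^ 2) ^ k / (k.factorial : ℝ)) := (Real.summable_pow_div_factorial (y ^ 2)).mul_left _
  refine Summable.of_nonneg_of_le (fun k => ?_) (fun k => ?_) h1
  · have h : 0 < Real.Gamma ((k : ℝ) + μ + 1) := by
      refine Real.Gamma_pos_of_pos ?_
      have : (0 : ℝ) ≤ k := Nat.cast_nonneg k
      linarith
    positivity
  · have h2 := Gam_lb (μ + 1) hc k
    rw [← add_assoc] at h2
    rw [rpow_split y μ hy, div_mul_div_comm]
    have h3 : (0 : ℝ) < k.factorial := by positivity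
    have h4 : 0 ≤ y ^ μ * (y ^ 2) ^ k := by positivity
    refine div_le_div_of_nonneg_left h4 (by positivity) ?_
    rw [mul_comm]
    gcongr

/-- The density without exponential factor, as an extended nonnegative function. -/
noncomputable def dens (μ ν a x : ℝ) : ℝ≥0∞ :=
  ∑' k : ℕ, ENNReal.ofReal (dco μ a k * x ^ (μ + ν + 2 * (k : ℝ) - 1))

lemma dens_meas (μ ν a : ℝ) : Measurable (dens μ ν a) := by
  unfold dens
  refine Measurable.tsum fun k => ?_
  fun_prop

lemma weight_eq (μ ν a b x : ℝ) (hμ : -1 < μ) (ha : 0 < a) (hx : 0 < x) :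
    ENNReal.ofReal (weight μ ν a b x) = ew (-b) x * dens μ ν a x := by
  have hs := bessel_summable μ (a * x / 2) hμ (by positivity)
  have hterm : ∀ k : ℕ, x ^ (ν - 1) * ((a * x / 2) ^ (2 * (k : ℝ) + μ) /
      ((k.factorial : ℝ) * Real.Gamma ((k : ℝ) + μ + 1)))
      = dco μ a k * x ^ (μ + ν + 2 * (k : ℝ) - 1) := by
    intro k
    unfold dco
    have e1 : a * x / 2 = (a / 2) * x := by ring
    rw [e1, Real.mul_rpow (by positivity) hx.le]
    have e2 : x ^ (μ + ν + 2 * (k : ℝ) - 1) = x ^ (ν - 1) * x ^ (2 * (k : ℝ) + μ) := by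
      rw [← Real.rpow_add hx]
      congr 1
      ring
    rw [e2]
    ring
  have h1 : weight μ ν a b x = Real.exp (-b * x) *
      ∑' k : ℕ, dco μ a k * x ^ (μ + ν + 2 * (k : ℝ) - 1) := by
    unfold weight besselI
    have e : x ^ (ν - 1) * Real.exp (-(b * x)) * ∑' k : ℕ, (a * x / 2) ^ (2 * (k : ℝ) + μ) /
        ((k.factorial : ℝ) * Real.Gamma ((k : ℝ) + μ + 1))
        = Real.exp (-(b * x)) * (x ^ (ν - 1) * ∑' k : ℕ, (a * x / 2) ^ (2 * (k : ℝ) + μ) /
        ((k.factorial : ℝ) * Real.Gamma ((k : ℝ) + μ + 1))) := by ring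
    rw [e, ← tsum_mul_left, neg_mul]
    congr 1
    exact tsum_congr hterm
  have hs2 : Summable fun k : ℕ => dco μ a k * x ^ (μ + ν + 2 * (k : ℝ) - 1) :=
    (hs.mul_left (x ^ (ν - 1))).congr hterm
  rw [h1, ENNReal.ofReal_mul (Real.exp_pos _).le]
  unfold dens ew
  rw [ENNReal.ofReal_tsum_of_nonneg (fun k => ?_) hs2]
  have := dco_pos μ a hμ ha k
  positivity

/-- The measure without exponential factor. -/
noncomputable def m0 (μ ν a : ℝ) : Measure ℝ :=
  (volume.restrict (Ioi (0 : ℝ))).withDensity (dens μ ν a)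

instance (μ ν a : ℝ) : SFinite (m0 μ ν a) := by unfold m0; infer_instance

lemma tilt_m0 (μ ν a b : ℝ) (hμ : -1 < μ) (ha : 0 < a) :
    tilt (-b) (m0 μ ν a) = (volume.restrict (Ioi (0 : ℝ))).withDensity
      fun x => ENNReal.ofReal (weight μ ν a b x) := by
  unfold tilt m0
  rw [← withDensity_mul _ (dens_meas μ ν a) (ew_meas _)]
  refine withDensity_congr_ae ?_
  refine (ae_restrict_iff' measurableSet_Ioi).mpr (Eventually.of_forall fun x hx => ?_)
  show (dens μ ν a * ew (-b)) x = ENNReal.ofReal (weight μ ν a b x)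
  rw [weight_eq μ ν a b x hμ ha hx, Pi.mul_apply, mul_comm]

lemma gam_id (A c : ℝ) (hA : 0 < A) (hc : 0 < c) (k : ℕ) :
    Real.Gamma (2 * A + 2 * k) * Real.Gamma c =
      Real.Gamma (2 * A) * 4 ^ k * k.factorial * Real.Gamma ((k : ℝ) + c)
        * hyp A (A + 1 / 2) c k := by
  induction k with
  | zero => simp [hyp_zero]
  | succ k ih =>
    have hk : (0 : ℝ) ≤ k := Nat.cast_nonneg k
    have e1 : 2 * A + 2 * ((k + 1 : ℕ) : ℝ) = (2 * A + 2 * k + 1) + 1 := by push_cast; ring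
    have e2 : ((k + 1 : ℕ) : ℝ) + c = ((k : ℝ) + c) + 1 := by push_cast; ring
    rw [e1, Real.Gamma_add_one (by positivity), Real.Gamma_add_one (by positivity), e2,
      Real.Gamma_add_one (by positivity), hyp_succ, Nat.factorial_succ]
    push_cast
    have h1 : (k : ℝ) + c ≠ 0 := by positivity
    have h2 : c + (k : ℝ) ≠ 0 := by positivity
    have h3 : (k : ℝ) + 1 ≠ 0 := by positivity
    calc (2 * A + 2 * (k : ℝ) + 1) * ((2 * A + 2 * k) * Real.Gamma (2 * A + 2 * k)) * Real.Gamma c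
        = (2 * A + 2 * (k : ℝ) + 1) * (2 * A + 2 * k) *
          (Real.Gamma (2 * A + 2 * k) * Real.Gamma c) := by ring
      _ = _ := by
        rw [ih]
        field_simp
        ring

lemma Lap_m0 (μ ν a z : ℝ) (hμ : -1 < μ) (hν : 0 < μ + ν) (ha : 0 < a) (hz : 0 < z)
    (hs : Summable fun n => |hyp ((μ + ν) / 2) ((μ + ν) / 2 + 1 / 2) (μ + 1) n * ((a / z) ^ 2) ^ n|) :
    Lap (m0 μ ν a) z = ENNReal.ofReal
      (((a / 2) ^ μ * Real.Gamma (μ + ν) / Real.Gamma (μ + 1)) * (1 / z) ^ (μ + ν)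
        * Pser ((μ + ν) / 2) (μ + 1) ((a / z) ^ 2)) := by
  have hc : 0 < μ + 1 := by linarith
  have hA : 0 < (μ + ν) / 2 := by linarith
  have h1 : Lap (m0 μ ν a) z = ∑' k : ℕ, ∫⁻ x in Ioi (0 : ℝ),
      ENNReal.ofReal (dco μ a k * x ^ (μ + ν + 2 * (k : ℝ) - 1)) * ew (-z) x := by
    unfold Lap m0
    rw [lintegral_withDensity_eq_lintegral_mul _ (dens_meas μ ν a) (ew_meas _)]
    rw [← lintegral_tsum]
    · refine lintegral_congr fun x => ?_
      rw [Pi.mul_apply, ENNReal.tsum_mul_right]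
      rfl
    · intro k
      have := ew_meas (-z)
      fun_prop
  have h2 : ∀ k : ℕ, ∫⁻ x in Ioi (0 : ℝ),
      ENNReal.ofReal (dco μ a k * x ^ (μ + ν + 2 * (k : ℝ) - 1)) * ew (-z) x
      = ENNReal.ofReal (((a / 2) ^ μ * Real.Gamma (μ + ν) / Real.Gamma (μ + 1)) *
        (1 / z) ^ (μ + ν) * (hyp ((μ + ν) / 2) ((μ + ν) / 2 + 1 / 2) (μ + 1) k
          * ((a / z) ^ 2) ^ k)) := by
    intro k
    have hk : (0 : ℝ) ≤ k := Nat.cast_nonneg k
    have hd := dco_pos μ a hμ ha k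
    have e1 : ∀ x : ℝ, ENNReal.ofReal (dco μ a k * x ^ (μ + ν + 2 * (k : ℝ) - 1)) * ew (-z) x
        = ENNReal.ofReal (dco μ a k) *
          ENNReal.ofReal (x ^ (μ + ν + 2 * (k : ℝ) - 1) * Real.exp (-(z * x))) := by
      intro x
      unfold ew
      rw [ENNReal.ofReal_mul hd.le, mul_assoc, ENNReal.ofReal_mul' (Real.exp_pos _).le, neg_mul]
    simp only [e1]
    rw [lintegral_const_mul _ (by fun_prop), lint_gamma _ _ (by positivity) hz,
      ← ENNReal.ofReal_mul hd.le]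
    congr 1
    have hg := gam_id ((μ + ν) / 2) (μ + 1) hA hc k
    have e2 : 2 * ((μ + ν) / 2) + 2 * (k : ℝ) = μ + ν + 2 * k := by ring
    have e3 : 2 * ((μ + ν) / 2) = μ + ν := by ring
    rw [e2, e3] at hg
    generalize hyp ((μ + ν) / 2) ((μ + ν) / 2 + 1 / 2) (μ + 1) k = Hk at hg ⊢
    have hGk : 0 < Real.Gamma ((k : ℝ) + (μ + 1)) := Real.Gamma_pos_of_pos (by positivity)
    have hGc : 0 < Real.Gamma (μ + 1) := Real.Gamma_pos_of_pos hc
    unfold dco
    rw [rpow_split (a / 2) μ (by positivity), Real.rpow_add (by positivity : 0 < 1 / z)]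
    have e4 : (1 / z) ^ (2 * (k : ℝ)) = ((1 / z) ^ 2) ^ k := by
      rw [← pow_mul, ← Real.rpow_natCast]
      push_cast
      rfl
    have e5 : (k : ℝ) + μ + 1 = (k : ℝ) + (μ + 1) := by ring
    rw [e4, e5]
    have e6 : ((a / 2) ^ 2) ^ k * ((1 / z) ^ 2) ^ k = ((a / z) ^ 2) ^ k / 4 ^ k := by
      rw [← mul_pow, ← div_pow]
      congr 1
      field_simp
      ring
    have hf : (k.factorial : ℝ) ≠ 0 := by positivity
    have h4 : (4 : ℝ) ^ k ≠ 0 := by positivity
    have e7 : Real.Gamma (μ + ν + 2 * k) / Real.Gamma ((k : ℝ) + (μ + 1)) =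
        Real.Gamma (μ + ν) / Real.Gamma (μ + 1) * 4 ^ k * k.factorial * Hk := by
      rw [div_eq_iff hGk.ne']
      field_simp
      linear_combination hg
    calc (a / 2) ^ μ * ((a / 2) ^ 2) ^ k / (k.factorial * Real.Gamma ((k : ℝ) + (μ + 1))) *
          ((1 / z) ^ (μ + ν) * ((1 / z) ^ 2) ^ k * Real.Gamma (μ + ν + 2 * k))
        = (a / 2) ^ μ * (1 / z) ^ (μ + ν) * (((a / 2) ^ 2) ^ k * ((1 / z) ^ 2) ^ k) *
          (Real.Gamma (μ + ν + 2 * k) / Real.Gamma ((k : ℝ) + (μ + 1))) / k.factorial := by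
          field_simp
      _ = _ := by
          rw [e6, e7]
          field_simp
  rw [h1]
  simp only [h2]
  have hP : ∀ k, 0 ≤ hyp ((μ + ν) / 2) ((μ + ν) / 2 + 1 / 2) (μ + 1) k := by
    intro k
    unfold hyp
    refine Finset.prod_nonneg fun i _ => ?_
    have hi : (0 : ℝ) ≤ i := Nat.cast_nonneg i
    positivity
  have hGc : 0 < Real.Gamma (μ + 1) := Real.Gamma_pos_of_pos hc
  have hGa : 0 < Real.Gamma (μ + ν) := Real.Gamma_pos_of_pos hν
  rw [← ENNReal.ofReal_tsum_of_nonneg]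
  · rw [tsum_mul_left]
    rfl
  · intro k
    have := hP k
    positivity
  · refine Summable.mul_left _ ?_
    exact hs.of_abs

end Pool.Agent.Lib.MP_0c4359_pr
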